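import Pool.Agent.W821.TB.Fam
import Pool.Agent.GR.Flow

/-!
A compactly supported, rotation invariant modification of the Newtonian vector field in the centre of
mass frame.
-/

set_option autoImplicit false

namespace Pool.Agent.D0H95.NB

open Pool.Agent.W821.TB Finset Filter Topology
open Pool.Agent.GR.Flow (IsFlowOf exists_solution)

variable {n : ℕ} {m : Fin n → ℝ}

theorem sum_acc (m : Fin n → ℝ) (q : Fin n → ℂ) : ∑ a, (m a : ℂ) * acc m q a = 0 := by
  have h : ∀ g : Fin n → Fin n → ℂ, ∑ a, ∑ b ∈ univ.erase a, g a b =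
      ∑ a, ∑ b, if a ≠ b then g a b else 0 := by
    intro g
    refine Finset.sum_congr rfl fun a _ => ?_
    rw [← Finset.sum_filter]
    refine Finset.sum_congr ?_ fun _ _ => rfl
    ext b
    simp [eq_comm]
  have h1 : ∑ a, (m a : ℂ) * acc m q a =
      ∑ a, ∑ b ∈ univ.erase a, (m a : ℂ) * (((m b / ‖q b - q a‖ ^ 3 : ℝ) : ℂ) * (q b - q a)) := by
    refine Finset.sum_congr rfl fun a _ => ?_
    rw [acc, Finset.mul_sum]
  rw [h1, h]
  have h2 : ∀ f : Fin n → Fin n → ℂ, (∀ a b, f a b = - f b a) → ∑ a, ∑ b, f a b = 0 := by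
    intro f hf
    have h3 : ∑ a, ∑ b, f a b = - ∑ a, ∑ b, f a b := by
      conv_lhs => rw [Finset.sum_comm]
      rw [← Finset.sum_neg_distrib]
      refine Finset.sum_congr rfl fun a _ => ?_
      rw [← Finset.sum_neg_distrib]
      exact Finset.sum_congr rfl fun b _ => hf b a
    have h4 : (2:ℂ) * ∑ a, ∑ b, f a b = 0 := by linear_combination h3
    simpa using h4
  refine h2 _ fun a b => ?_
  by_cases hab : a = b
  · subst hab; simp
  · rw [if_pos hab, if_pos (Ne.symm hab), norm_sub_rev (q b) (q a)]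
    push_cast
    ring

/-- The centre of mass frame. -/
def cm (m : Fin n → ℝ) : Submodule ℂ (Ph n) where
  carrier := {z | ∑ a, (m a : ℂ) * z.1 a = 0 ∧ ∑ a, (m a : ℂ) * z.2 a = 0}
  zero_mem' := by simp
  add_mem' := by
    rintro z w ⟨h1, h2⟩ ⟨h3, h4⟩
    constructor
    · simp only [Prod.fst_add, Pi.add_apply, mul_add, Finset.sum_add_distrib, h1, h3, add_zero]
    · simp only [Prod.snd_add, Pi.add_apply, mul_add, Finset.sum_add_distrib, h2, h4, add_zero]
  smul_mem' := by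
    rintro c z ⟨h1, h2⟩
    constructor
    · simp only [Prod.smul_fst, Pi.smul_apply, smul_eq_mul]
      have : ∑ a, (m a : ℂ) * (c * z.1 a) = c * ∑ a, (m a : ℂ) * z.1 a := by
        rw [Finset.mul_sum]; exact Finset.sum_congr rfl fun a _ => by ring
      rw [this, h1, mul_zero]
    · simp only [Prod.smul_snd, Pi.smul_apply, smul_eq_mul]
      have : ∑ a, (m a : ℂ) * (c * z.2 a) = c * ∑ a, (m a : ℂ) * z.2 a := by
        rw [Finset.mul_sum]; exact Finset.sum_congr rfl fun a _ => by ring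
      rw [this, h2, mul_zero]

theorem mem_cm {z : Ph n} : z ∈ cm m ↔
    ∑ a, (m a : ℂ) * z.1 a = 0 ∧ ∑ a, (m a : ℂ) * z.2 a = 0 := Iff.rfl

theorem vf_mem {z : Ph n} (hz : z ∈ cm m) : vf m z ∈ cm m := ⟨hz.2, sum_acc m z.1⟩

theorem vf_smul {c : ℂ} (hc : ‖c‖ = 1) (z : Ph n) : vf m (c • z) = c • vf m z := by
  unfold vf
  refine Prod.ext rfl ?_
  funext a
  exact acc_smul c hc z.1 a

/-- Square norm. -/
noncomputable def NS (z : Ph n) : ℝ := ∑ a, (‖z.1 a‖ ^ 2 + ‖z.2 a‖ ^ 2)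

theorem contDiff_NS : ContDiff ℝ 1 (NS : Ph n → ℝ) := by
  unfold NS
  refine ContDiff.sum fun a _ => ?_
  have h1 : ContDiff ℝ 1 (fun z : Ph n => z.1 a) := by fun_prop
  have h2 : ContDiff ℝ 1 (fun z : Ph n => z.2 a) := by fun_prop
  exact (h1.norm_sq ℝ).add (h2.norm_sq ℝ)

theorem NS_smul {c : ℂ} (hc : ‖c‖ = 1) (z : Ph n) : NS (c • z) = NS z := by
  unfold NS
  refine Finset.sum_congr rfl fun a _ => ?_
  simp [hc]

theorem norm_le_NS (z : Ph n) {R : ℝ} (hR : 0 ≤ R) (h : NS z ≤ R ^ 2) : ‖z‖ ≤ R := by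
  have h1 : ∀ a, ‖z.1 a‖ ^ 2 + ‖z.2 a‖ ^ 2 ≤ NS z := fun a =>
    Finset.single_le_sum (f := fun a => ‖z.1 a‖ ^ 2 + ‖z.2 a‖ ^ 2)
      (fun b _ => by positivity) (Finset.mem_univ a)
  rw [Prod.norm_def]
  refine max_le ?_ ?_
  · rw [pi_norm_le_iff_of_nonneg hR]
    intro a
    have := h1 a
    exact le_of_sq_le_sq' (by nlinarith [sq_nonneg ‖z.2 a‖]) hR
  · rw [pi_norm_le_iff_of_nonneg hR]
    intro a
    have := h1 a
    exact le_of_sq_le_sq' (by nlinarith [sq_nonneg ‖z.1 a‖]) hR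
where
  le_of_sq_le_sq' {x y : ℝ} (h : x ^ 2 ≤ y ^ 2) (hy : 0 ≤ y) : x ≤ y := abs_le_of_sq_le_sq' h hy |>.2

/-- The cut-off function. -/
noncomputable def chi (R δ : ℝ) (z : Ph n) : ℝ :=
  Real.smoothTransition (2 - NS z / R) *
    ∏ a, ∏ b ∈ univ.erase a, Real.smoothTransition (2 * ‖z.1 b - z.1 a‖ ^ 2 / δ - 1)

/-- The region where the vector field is not modified. -/
def Rg (R δ : ℝ) : Set (Ph n) := {z | NS z < R ∧ ∀ a b, a ≠ b → δ < ‖z.1 b - z.1 a‖ ^ 2}

theorem isOpen_Rg (R δ : ℝ) : IsOpen (Rg R δ : Set (Ph n)) := by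
  have h1 : IsOpen {z : Ph n | NS z < R} := isOpen_lt contDiff_NS.continuous continuous_const
  have h2 : IsOpen {z : Ph n | ∀ a b, a ≠ b → δ < ‖z.1 b - z.1 a‖ ^ 2} := by
    simp only [Set.ofPred_forall]
    refine isOpen_iInter_of_finite fun a => isOpen_iInter_of_finite fun b =>
      isOpen_iInter_of_finite fun _ => ?_
    exact isOpen_lt continuous_const (by fun_prop)
  exact h1.inter h2

theorem Rg_smul {R δ : ℝ} {c : ℂ} (hc : ‖c‖ = 1) {z : Ph n} (hz : z ∈ (Rg R δ : Set (Ph n))) :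
    c • z ∈ (Rg R δ : Set (Ph n)) := by
  refine ⟨by rw [NS_smul hc]; exact hz.1, fun a b hab => ?_⟩
  have : (c • z).1 b - (c • z).1 a = c * (z.1 b - z.1 a) := by
    simp [mul_sub]
  rw [this, norm_mul, hc, one_mul]
  exact hz.2 a b hab

theorem Rg_ne {R δ : ℝ} (hδ : 0 < δ) {z : Ph n} (hz : z ∈ (Rg R δ : Set (Ph n))) :
    ∀ a b, a ≠ b → z.1 a ≠ z.1 b := by
  intro a b hab h
  have := hz.2 a b hab
  rw [h, sub_self, norm_zero] at this
  norm_num at this
  linarith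

theorem chi_smul {R δ : ℝ} {c : ℂ} (hc : ‖c‖ = 1) (z : Ph n) : chi R δ (c • z) = chi R δ z := by
  unfold chi
  rw [NS_smul hc]
  congr 1
  refine Finset.prod_congr rfl fun a _ => Finset.prod_congr rfl fun b _ => ?_
  have : (c • z).1 b - (c • z).1 a = c * (z.1 b - z.1 a) := by
    simp [mul_sub]
  rw [this, norm_mul, hc, one_mul]

theorem chi_one {R δ : ℝ} (hR : 0 < R) (hδ : 0 < δ) {z : Ph n} (hz : z ∈ (Rg R δ : Set (Ph n))) :
    chi R δ z = 1 := by
  unfold chi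
  rw [Real.smoothTransition.one_of_one_le, one_mul]
  · refine Finset.prod_eq_one fun a _ => Finset.prod_eq_one fun b hb => ?_
    apply Real.smoothTransition.one_of_one_le
    have h1 := hz.2 a b (Finset.ne_of_mem_erase hb).symm
    have h2 : 1 ≤ ‖z.1 b - z.1 a‖ ^ 2 / δ := by
      rw [le_div_iff₀ hδ]; linarith
    have h3 : 2 * ‖z.1 b - z.1 a‖ ^ 2 / δ = 2 * (‖z.1 b - z.1 a‖ ^ 2 / δ) := by ring
    rw [h3]; linarith
  · have h1 : NS z / R ≤ 1 := by
      rw [div_le_iff₀ hR]; linarith [hz.1]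
    linarith

theorem contDiff_chi (R δ : ℝ) : ContDiff ℝ 1 (chi R δ : Ph n → ℝ) := by
  unfold chi
  have hst : ContDiff ℝ 1 Real.smoothTransition := Real.smoothTransition.contDiff
  refine ContDiff.mul ?_ ?_
  · exact hst.comp (contDiff_const.sub (contDiff_NS.div_const R))
  · refine contDiff_prod fun a _ => contDiff_prod fun b _ => ?_
    have h1 : ContDiff ℝ 1 (fun z : Ph n => z.1 b - z.1 a) := by fun_prop
    exact hst.comp (((contDiff_const.mul (h1.norm_sq ℝ)).div_const δ).sub contDiff_const)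

theorem chi_zero_of_NS {R δ : ℝ} (hR : 0 < R) {z : Ph n} (hz : 2 * R ≤ NS z) :
    chi R δ z = 0 := by
  unfold chi
  rw [Real.smoothTransition.zero_of_nonpos, zero_mul]
  have : 2 ≤ NS z / R := by
    rw [le_div_iff₀ hR]; exact hz
  linarith

theorem chi_zero_near {R δ : ℝ} (hδ : 0 < δ) {z : Ph n} {a b : Fin n} (hab : a ≠ b)
    (hz : z.1 a = z.1 b) : ∀ᶠ w in 𝓝 z, chi R δ w = 0 := by
  have h1 : Continuous (fun w : Ph n => 2 * ‖w.1 b - w.1 a‖ ^ 2 / δ - 1) := by fun_prop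
  have h2 : (fun w : Ph n => 2 * ‖w.1 b - w.1 a‖ ^ 2 / δ - 1) z < 0 := by
    simp [hz]
  filter_upwards [(h1.tendsto z).eventually (gt_mem_nhds h2)] with w hw
  unfold chi
  have : ∏ a, ∏ b ∈ univ.erase a, Real.smoothTransition (2 * ‖w.1 b - w.1 a‖ ^ 2 / δ - 1) = 0 := by
    apply Finset.prod_eq_zero (Finset.mem_univ a)
    apply Finset.prod_eq_zero (Finset.mem_erase.mpr ⟨hab.symm, Finset.mem_univ b⟩)
    exact Real.smoothTransition.zero_of_nonpos hw.le
  rw [this, mul_zero]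

/-- A real linear projection onto the centre of mass frame. -/
theorem exists_pr (m : Fin n → ℝ) : ∃ pr : Ph n →L[ℝ] cm m, ∀ z : cm m, pr (z : Ph n) = z := by
  obtain ⟨g, hg⟩ := ((cm m).restrictScalars ℝ).subtype.exists_leftInverse_of_injective
    (Submodule.ker_subtype _)
  refine ⟨LinearMap.toContinuousLinearMap (g : Ph n →ₗ[ℝ] ((cm m).restrictScalars ℝ)), fun z => ?_⟩
  have := congrArg (fun L : ((cm m).restrictScalars ℝ) →ₗ[ℝ] ((cm m).restrictScalars ℝ) => L z) hg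
  exact this

noncomputable def pr (m : Fin n → ℝ) : Ph n →L[ℝ] cm m := Classical.choose (exists_pr m)

theorem pr_apply (z : cm m) : pr m (z : Ph n) = z := Classical.choose_spec (exists_pr m) z

/-- The inclusion, as a real linear map. -/
noncomputable def inc (m : Fin n → ℝ) : cm m →L[ℝ] Ph n :=
  ((cm m).subtypeL).restrictScalars ℝ

@[simp] theorem inc_apply (z : cm m) : inc m z = (z : Ph n) := rfl

/-- The modified vector field. -/
noncomputable def XX (m : Fin n → ℝ) (R δ : ℝ) (z : cm m) : cm m :=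
  chi R δ (z : Ph n) • pr m (vf m (z : Ph n))

theorem XX_coe (R δ : ℝ) (z : cm m) :
    ((XX m R δ z : cm m) : Ph n) = chi R δ (z : Ph n) • vf m (z : Ph n) := by
  have h : pr m (vf m (z : Ph n)) = ⟨vf m (z : Ph n), vf_mem z.2⟩ :=
    pr_apply (⟨vf m (z : Ph n), vf_mem z.2⟩ : cm m)
  unfold XX
  rw [h]
  rfl

theorem XX_one {R δ : ℝ} (hR : 0 < R) (hδ : 0 < δ) {z : cm m}
    (hz : (z : Ph n) ∈ (Rg R δ : Set (Ph n))) : ((XX m R δ z : cm m) : Ph n) = vf m (z : Ph n) := by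
  rw [XX_coe, chi_one hR hδ hz, one_smul]

theorem XX_smul {R δ : ℝ} {c : ℂ} (hc : ‖c‖ = 1) (z : cm m) :
    XX m R δ (c • z) = c • XX m R δ z := by
  apply Subtype.ext
  rw [XX_coe]
  have h1 : ((c • z : cm m) : Ph n) = c • (z : Ph n) := rfl
  have h2 : ((c • XX m R δ z : cm m) : Ph n) = c • ((XX m R δ z : cm m) : Ph n) := rfl
  rw [h1, h2, chi_smul hc, vf_smul hc, XX_coe, smul_comm]

theorem contDiff_XX {R δ : ℝ} (hδ : 0 < δ) : ContDiff ℝ 1 (XX m R δ) := by
  rw [contDiff_iff_contDiffAt]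
  intro z
  have hinc : ContDiff ℝ 1 (fun z : cm m => (z : Ph n)) := (inc m).contDiff
  by_cases hz : ∀ a b, a ≠ b → (z : Ph n).1 a ≠ (z : Ph n).1 b
  · have h0 : ContDiffAt ℝ 1 (fun z : cm m => chi R δ (z : Ph n)) z :=
      ((contDiff_chi R δ).comp hinc).contDiffAt
    have h1 : ContDiffAt ℝ 1 (vf m) ((fun z : cm m => (z : Ph n)) z) := contDiffAt_vf hz
    have h2 : ContDiffAt ℝ 1 (fun z : cm m => vf m (z : Ph n)) z := h1.comp z hinc.contDiffAt
    have h3 : ContDiffAt ℝ 1 (fun z : cm m => pr m (vf m (z : Ph n))) z :=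
      (pr m).contDiff.contDiffAt.comp z h2
    exact h0.smul h3
  · simp only [not_forall, not_not] at hz
    obtain ⟨a, b, hab, h⟩ := hz
    have h1 := (hinc.continuous.tendsto z).eventually (chi_zero_near (R := R) hδ hab h)
    refine ContDiffAt.congr_of_eventuallyEq (contDiffAt_const (c := (0 : cm m))) ?_
    filter_upwards [h1] with w hw
    unfold XX
    rw [hw, zero_smul]

theorem compact_XX {R δ : ℝ} (hR : 0 < R) : HasCompactSupport (XX m R δ) := by
  apply HasCompactSupport.of_support_subset_isCompact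
    (isCompact_closedBall (0 : cm m) (Real.sqrt (2 * R)))
  intro z hz
  rw [Function.mem_support] at hz
  rw [mem_closedBall_zero_iff]
  have h1 : NS (z : Ph n) < 2 * R := by
    by_contra h
    apply hz
    unfold XX
    rw [chi_zero_of_NS hR (not_lt.mp h), zero_smul]
  have h2 : ‖(z : Ph n)‖ ≤ Real.sqrt (2 * R) :=
    norm_le_NS _ (Real.sqrt_nonneg _) (by rw [Real.sq_sqrt (by positivity)]; exact h1.le)
  exact h2

/-- The flow of the modified vector field. -/
theorem exists_flow (m : Fin n → ℝ) {R δ : ℝ} (hR : 0 < R) (hδ : 0 < δ) :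
    ∃ (K : NNReal) (g : ℝ → cm m → cm m), LipschitzWith K (XX m R δ) ∧ IsFlowOf (XX m R δ) g := by
  obtain ⟨K, hK⟩ := ContDiff.lipschitzWith_of_hasCompactSupport (compact_XX (m := m) (δ := δ) hR)
    (contDiff_XX hδ) one_ne_zero
  obtain ⟨M, hM⟩ := (contDiff_XX (m := m) (R := R) hδ).continuous.bounded_above_of_compact_support
    (compact_XX hR)
  have hM' : ∀ x, ‖XX m R δ x‖ ≤ ((Real.toNNReal M : NNReal) : ℝ) := fun x =>
    (hM x).trans (Real.le_coe_toNNReal M)
  choose γ h0 h1 using fun x : cm m => exists_solution hK hM' x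
  exact ⟨K, fun t x => γ x t, hK, ⟨h0, fun x t => h1 x t⟩⟩

end Pool.Agent.D0H95.NB
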