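import Pool.Agent.D0H95.NB.Cut
import Pool.Agent.W821.TB.Ang

/-!
The flow of the modified field: equivariance, true solutions, conservation laws.
-/

set_option autoImplicit false

namespace Pool.Agent.D0H95.NB

open Pool.Agent.W821.TB Finset Filter Topology
open Pool.Agent.GR.Flow (IsFlowOf contDiff_flow hasDerivAt_fderiv_flow)

variable {n : ℕ} {m : Fin n → ℝ}

/-- A region with the modified flow. -/
structure Pk (m : Fin n → ℝ) where
  R : ℝ
  δ : ℝ
  hR : 0 < R
  hδ : 0 < δ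
  K : NNReal
  g : ℝ → cm m → cm m
  hK : LipschitzWith K (XX m R δ)
  hg : IsFlowOf (XX m R δ) g

theorem exists_pk (m : Fin n → ℝ) {R δ : ℝ} (hR : 0 < R) (hδ : 0 < δ) :
    ∃ P : Pk m, P.R = R ∧ P.δ = δ := by
  obtain ⟨K, g, hK, hg⟩ := exists_flow m hR hδ
  exact ⟨⟨R, δ, hR, hδ, K, g, hK, hg⟩, rfl, rfl⟩

theorem sol_cm {x : ℝ → Ph n} (hx : IsSol m Set.univ x) (t : ℝ) : x t ∈ cm m := by
  have h := hx.mem t
  exact ⟨h.2.1, h.2.2⟩

namespace Pk

variable (P : Pk m)

/-- The region. -/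
def S : Set (Ph n) := Rg P.R P.δ

/-- The field as a continuous map. -/
noncomputable def X : C(cm m, cm m) := ⟨XX m P.R P.δ, (contDiff_XX P.hδ).continuous⟩

theorem cd : ContDiff ℝ 1 (fun p : ℝ × cm m => P.g p.1 p.2) := by
  have h : ContDiff ℝ ((1:ℕ):WithTop ℕ∞) P.X := by
    have h0 := contDiff_XX (m := m) (R := P.R) P.hδ
    rw [show (P.X : cm m → cm m) = XX m P.R P.δ from rfl]
    simpa using h0
  have := contDiff_flow (X := P.X) (m := 1) one_ne_zero h P.hK P.hg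
  simpa using this

theorem add (t s : ℝ) (z : cm m) : P.g (t + s) z = P.g t (P.g s z) :=
  P.hg.add P.hK t s z

theorem uniq {α β : ℝ → cm m} (hα : ∀ t, HasDerivAt α (XX m P.R P.δ (α t)) t)
    (hβ : ∀ t, HasDerivAt β (XX m P.R P.δ (β t)) t) (h : α 0 = β 0) : α = β :=
  ODE_solution_unique_univ (v := fun _ => XX m P.R P.δ) (s := fun _ => Set.univ) (K := P.K)
    (t₀ := 0) (fun _ => P.hK.lipschitzOnWith) (fun t => ⟨hα t, trivial⟩)
    (fun t => ⟨hβ t, trivial⟩) h

theorem smul {c : ℂ} (hc : ‖c‖ = 1) (t : ℝ) (z : cm m) : P.g t (c • z) = c • P.g t z := by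
  have h : (fun t => P.g t (c • z)) = fun t => c • P.g t z := by
    refine P.uniq (fun t => P.hg.deriv _ t) (fun t => ?_) ?_
    · rw [XX_smul hc]
      exact (P.hg.deriv z t).const_smul c
    · simp only [P.hg.zero]
  exact congrFun h t

theorem of_sol {x : ℝ → Ph n} (hx : IsSol m Set.univ x) (hS : ∀ t, x t ∈ P.S) (t : ℝ) :
    ((P.g t ⟨x 0, sol_cm hx 0⟩ : cm m) : Ph n) = x t := by
  have hmem : ∀ t, x t ∈ cm m := fun t => sol_cm hx t
  have hpr : ∀ t, pr m (x t) = ⟨x t, hmem t⟩ := fun t => pr_apply (⟨x t, hmem t⟩ : cm m)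
  have h : (fun t => P.g t ⟨x 0, sol_cm hx 0⟩) = fun t => pr m (x t) := by
    refine P.uniq (fun t => P.hg.deriv _ t) (fun t => ?_) ?_
    · have h1 : HasDerivAt (fun t => pr m (x t)) (pr m (vf m (x t))) t :=
        (pr m).hasFDerivAt.comp_hasDerivAt t (hx.hasDerivAt t)
      have h2 : XX m P.R P.δ (pr m (x t)) = pr m (vf m (x t)) := by
        rw [hpr]
        unfold XX
        have : chi P.R P.δ ((⟨x t, hmem t⟩ : cm m) : Ph n) = 1 := chi_one P.hR P.hδ (hS t)
        rw [this, one_smul]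
      rw [h2]
      exact h1
    · change P.g 0 ⟨x 0, sol_cm hx 0⟩ = pr m (x 0)
      rw [P.hg.zero, hpr]
  have h1 : P.g t ⟨x 0, sol_cm hx 0⟩ = pr m (x t) := congrFun h t
  rw [h1, hpr]

theorem deriv_coe {z : cm m} {t : ℝ} (h : ((P.g t z : cm m) : Ph n) ∈ P.S) :
    HasDerivAt (fun t => ((P.g t z : cm m) : Ph n)) (vf m ((P.g t z : cm m) : Ph n)) t := by
  have h1 : HasDerivAt (fun t => inc m (P.g t z)) (inc m (XX m P.R P.δ (P.g t z))) t :=
    (inc m).hasFDerivAt.comp_hasDerivAt t (P.hg.deriv z t)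
  have h2 : inc m (XX m P.R P.δ (P.g t z)) = vf m ((P.g t z : cm m) : Ph n) :=
    XX_one P.hR P.hδ h
  rw [h2] at h1
  exact h1

theorem sol_of {z : cm m} (h : ∀ t, ((P.g t z : cm m) : Ph n) ∈ P.S) :
    IsSol m Set.univ (fun t => ((P.g t z : cm m) : Ph n)) := by
  refine isSol_of (fun t => ?_) (fun t => P.deriv_coe (h t))
  exact ⟨Rg_ne P.hδ (h t), (P.g t z).2⟩

theorem per_smul {z : cm m} {c : ℂ} (hc : ‖c‖ = 1) {T : ℝ} (h : P.g T z = c • z) (t : ℝ) :
    P.g (t + T) z = c • P.g t z := by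
  rw [P.add, h, P.smul hc]

theorem per_int {z : cm m} {c : ℂ} (hc : ‖c‖ = 1) {T : ℝ} (h : P.g T z = c • z) (k : ℤ) :
    ∀ t : ℝ, ∃ d : ℂ, ‖d‖ = 1 ∧ P.g (t + k * T) z = d • P.g t z := by
  have hc0 : c ≠ 0 := by rintro rfl; simp at hc
  induction k using Int.induction_on with
  | zero => intro t; exact ⟨1, by simp, by simp⟩
  | succ k ih =>
    intro t
    obtain ⟨d, hd, h1⟩ := ih t
    refine ⟨c * d, by rw [norm_mul, hc, hd, one_mul], ?_⟩
    have h2 := P.per_smul hc h (t + k * T)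
    push_cast at h1 ⊢
    rw [show t + (k + 1) * T = t + k * T + T by ring, h2, h1, smul_smul]
  | pred k ih =>
    intro t
    obtain ⟨d, hd, h1⟩ := ih t
    refine ⟨c⁻¹ * d, by rw [norm_mul, norm_inv, hc, hd, inv_one, one_mul], ?_⟩
    have h2 := P.per_smul hc h (t + (-k - 1) * T)
    push_cast at h1 ⊢
    rw [show t + (-k - 1) * T + T = t + -k * T by ring, h1] at h2
    rw [← smul_smul, h2, smul_smul, inv_mul_cancel₀ hc0, one_smul]

theorem per_mem {z : cm m} {c : ℂ} (hc : ‖c‖ = 1) {T : ℝ} (hT : 0 < T) (h : P.g T z = c • z)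
    (hS : ∀ t ∈ Set.Icc 0 T, ((P.g t z : cm m) : Ph n) ∈ P.S) (t : ℝ) :
    ((P.g t z : cm m) : Ph n) ∈ P.S := by
  set k : ℤ := ⌊t / T⌋ with hk
  have h1 : (k:ℝ) * T ≤ t := by
    have := Int.floor_le (t / T)
    rwa [le_div_iff₀ hT] at this
  have h2 : t < ((k:ℝ) + 1) * T := by
    have := Int.lt_floor_add_one (t / T)
    rwa [div_lt_iff₀ hT] at this
  obtain ⟨d, hd, h3⟩ := P.per_int hc h k (t - k * T)
  rw [sub_add_cancel] at h3
  rw [h3]
  exact Rg_smul hd (hS _ ⟨by linarith, by linarith⟩)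

theorem energy_eq {z : cm m} {T : ℝ} (hT : 0 ≤ T)
    (hS : ∀ t ∈ Set.Icc 0 T, ((P.g t z : cm m) : Ph n) ∈ P.S) :
    energy m ((P.g T z : cm m) : Ph n) = energy m (z : Ph n) := by
  have hd : ∀ t ∈ Set.Icc 0 T,
      HasDerivAt (fun t => energy m ((P.g t z : cm m) : Ph n)) 0 t := by
    intro t ht
    have h1 := P.deriv_coe (hS t ht)
    have h2 := hasDerivAt_energy (m := m) (fst_deriv h1) (snd_deriv h1) (Rg_ne P.hδ (hS t ht))
    have h3 : ∑ a, m a * ip ((((P.g t z : cm m) : Ph n)).2 a)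
        ((vf m ((P.g t z : cm m) : Ph n)).2 a) -
        ∑ a, m a * ip (acc m (((P.g t z : cm m) : Ph n)).1 a)
        ((vf m ((P.g t z : cm m) : Ph n)).1 a) = 0 := by
      rw [sub_eq_zero]
      refine Finset.sum_congr rfl fun a _ => ?_
      simp only [vf, ip_eq]
      ring
    rw [h3] at h2
    exact h2
  have := constant_of_has_deriv_right_zero (f := fun t => energy m ((P.g t z : cm m) : Ph n))
    (a := 0) (b := T) (fun t ht => (hd t ht).continuousAt.continuousWithinAt)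
    (fun t ht => (hd t ⟨ht.1, ht.2.le⟩).hasDerivWithinAt) T ⟨hT, le_rfl⟩
  simp only [P.hg.zero] at this
  exact this

/-- Derivative of the angular momentum along a curve. -/
theorem _root_.Pool.Agent.D0H95.NB.hasDerivAt_angc {z : ℝ → Ph n} {z' : Ph n} {t : ℝ}
    (h : HasDerivAt z z' t) : HasDerivAt (fun s => ang m (z s))
      (∑ a, m a * ((starRingEnd ℂ) (z'.1 a) * (z t).2 a + (starRingEnd ℂ) ((z t).1 a) * z'.2 a).im) t := by
  unfold ang
  refine HasDerivAt.fun_sum fun a _ => ?_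
  exact (hasDerivAt_imc ((hasDerivAt_conj (fst_deriv h a)).mul (snd_deriv h a))).const_mul (m a)

theorem ang_eq {z : cm m} {T : ℝ} (hT : 0 ≤ T)
    (hS : ∀ t ∈ Set.Icc 0 T, ((P.g t z : cm m) : Ph n) ∈ P.S) :
    ang m ((P.g T z : cm m) : Ph n) = ang m (z : Ph n) := by
  have hd : ∀ t ∈ Set.Icc 0 T,
      HasDerivAt (fun t => ang m ((P.g t z : cm m) : Ph n)) 0 t := by
    intro t ht
    have h2 := hasDerivAt_angc (m := m) (P.deriv_coe (hS t ht))
    set w : Ph n := ((P.g t z : cm m) : Ph n) with hw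
    have h3 : ∑ a, m a * ((starRingEnd ℂ) ((vf m w).1 a) * w.2 a +
        (starRingEnd ℂ) (w.1 a) * (vf m w).2 a).im = 0 := by
      have h4 := torque_zero (m := m) w.1
      rw [← h4]
      refine Finset.sum_congr rfl fun a _ => ?_
      have h5 : ((starRingEnd ℂ) (w.2 a) * w.2 a).im = 0 := by
        rw [mul_comm, Complex.mul_conj]; exact Complex.ofReal_im _
      simp only [vf, Complex.add_im, h5, zero_add]
    rw [h3] at h2
    exact h2
  have := constant_of_has_deriv_right_zero (f := fun t => ang m ((P.g t z : cm m) : Ph n))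
    (a := 0) (b := T) (fun t ht => (hd t ht).continuousAt.continuousWithinAt)
    (fun t ht => (hd t ⟨ht.1, ht.2.le⟩).hasDerivWithinAt) T ⟨hT, le_rfl⟩
  simp only [P.hg.zero] at this
  exact this

/-- Orbit segments near an orbit segment in the region stay in the region. -/
theorem near {z0 : cm m} {T : ℝ}
    (hS : ∀ t ∈ Set.Icc 0 T, ((P.g t z0 : cm m) : Ph n) ∈ P.S) :
    ∀ᶠ z in 𝓝 z0, ∀ t ∈ Set.Icc 0 T, ((P.g t z : cm m) : Ph n) ∈ P.S := by
  have hc : Continuous (fun p : cm m × ℝ => ((P.g p.2 p.1 : cm m) : Ph n)) := by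
    have h1 : Continuous (fun p : cm m × ℝ => (p.2, p.1)) := by fun_prop
    exact (inc m).continuous.comp (P.cd.continuous.comp h1)
  have hO : IsOpen {p : cm m × ℝ | ((P.g p.2 p.1 : cm m) : Ph n) ∈ P.S} :=
    (isOpen_Rg P.R P.δ).preimage hc
  refine isCompact_Icc.eventually_forall_of_forall_eventually fun t ht => ?_
  exact hO.mem_nhds (hS t ht)

end Pk

end Pool.Agent.D0H95.NB
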