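import Pool.Agent.D0H95.NB.Flw
import Pool.Agent.W821.TB.Inv

/-!
Independence of the energy and of the angular momentum outside of relative equilibria.
-/

set_option autoImplicit false

namespace Pool.Agent.D0H95.NB

open Pool.Agent.W821.TB Finset Filter Topology

variable {n : ℕ} {m : Fin n → ℝ}

/-- Energy and angular momentum. -/
noncomputable def QQ (m : Fin n → ℝ) (z : cm m) : ℝ × ℝ := (energy m (z : Ph n), ang m (z : Ph n))

theorem contDiffAt_energy {z : Ph n} (hz : ∀ a b, a ≠ b → z.1 a ≠ z.1 b) :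
    ContDiffAt ℝ 1 (energy m) z := by
  unfold energy upot
  have hv : ∀ a, ContDiff ℝ 1 (fun w : Ph n => w.2 a) := fun a => by fun_prop
  have hq : ∀ a, ContDiff ℝ 1 (fun w : Ph n => w.1 a) := fun a => by fun_prop
  refine ContDiffAt.sub ?_ ?_
  · refine ContDiffAt.div_const ?_ 2
    exact ContDiffAt.sum fun a _ => (contDiff_const.mul ((hv a).norm_sq ℝ)).contDiffAt
  · refine ContDiffAt.div_const ?_ 2
    refine ContDiffAt.sum fun a _ => ContDiffAt.sum fun b hb => ?_
    have hne : z.1 b - z.1 a ≠ 0 := sub_ne_zero.mpr (hz b a (Finset.ne_of_mem_erase hb))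
    have h1 : ContDiffAt ℝ 1 (fun w : Ph n => ‖w.1 b - w.1 a‖) z :=
      ((hq b).sub (hq a)).contDiffAt.norm ℝ hne
    exact contDiffAt_const.div h1 (norm_ne_zero_iff.mpr hne)

theorem contDiff_ang : ContDiff ℝ 1 (ang m : Ph n → ℝ) := by
  unfold ang
  refine ContDiff.sum fun a _ => contDiff_const.mul ?_
  have h1 : ContDiff ℝ 1 (fun z : Ph n => (starRingEnd ℂ) (z.1 a)) :=
    Complex.conjCLE.contDiff.comp (by fun_prop : ContDiff ℝ 1 (fun z : Ph n => z.1 a))
  have h2 : ContDiff ℝ 1 (fun z : Ph n => z.2 a) := by fun_prop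
  exact Complex.imCLM.contDiff.comp (h1.mul h2)

theorem contDiffAt_QQ {z : cm m} (hz : ∀ a b, a ≠ b → (z : Ph n).1 a ≠ (z : Ph n).1 b) :
    ContDiffAt ℝ 1 (QQ m) z := by
  have hinc : ContDiff ℝ 1 (fun z : cm m => (z : Ph n)) := (inc m).contDiff
  exact (ContDiffAt.comp z (contDiffAt_energy hz) hinc.contDiffAt).prodMk
    (contDiff_ang.comp hinc).contDiffAt

theorem QQ_deriv {z : cm m} (hz : ∀ a b, a ≠ b → (z : Ph n).1 a ≠ (z : Ph n).1 b) (v : cm m) :
    fderiv ℝ (QQ m) z v =
      (∑ a, m a * ip ((z : Ph n).2 a) ((v : Ph n).2 a) -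
        ∑ a, m a * ip (acc m (z : Ph n).1 a) ((v : Ph n).1 a),
       ∑ a, m a * ((starRingEnd ℂ) ((v : Ph n).1 a) * (z : Ph n).2 a +
        (starRingEnd ℂ) ((z : Ph n).1 a) * (v : Ph n).2 a).im) := by
  have hd := ((contDiffAt_QQ hz).differentiableAt one_ne_zero).hasFDerivAt
  have hc : HasDerivAt (fun s : ℝ => z + s • v) v 0 := by
    have := ((hasDerivAt_id (0:ℝ)).smul_const v).const_add z
    simpa using this
  have h1 : HasDerivAt (fun s : ℝ => QQ m (z + s • v)) (fderiv ℝ (QQ m) z v) 0 := by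
    have h2 : HasFDerivAt (QQ m) (fderiv ℝ (QQ m) z) (z + (0:ℝ) • v) := by
      rw [zero_smul, add_zero]; exact hd
    exact h2.comp_hasDerivAt (0:ℝ) hc
  have hcc : HasDerivAt (fun s : ℝ => ((z + s • v : cm m) : Ph n)) (v : Ph n) 0 :=
    (inc m).hasFDerivAt.comp_hasDerivAt (0:ℝ) hc
  have hz' : ∀ a b, a ≠ b → ((z + (0:ℝ) • v : cm m) : Ph n).1 a ≠
      ((z + (0:ℝ) • v : cm m) : Ph n).1 b := by
    rw [zero_smul, add_zero]; exact hz
  have h3 := hasDerivAt_energy (m := m) (fst_deriv hcc) (snd_deriv hcc) hz'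
  have h4 := hasDerivAt_angc (m := m) hcc
  have h5 := h1.unique (h3.prodMk h4)
  rw [h5]
  simp only [zero_smul, add_zero]

theorem ip_I (q η : ℂ) : ((starRingEnd ℂ) q * η).im = ip (Complex.I * q) η := by
  simp only [ip_eq, Complex.mul_im, Complex.mul_re, Complex.conj_re, Complex.conj_im,
    Complex.I_re, Complex.I_im]
  ring

theorem ip_I' (ξ v : ℂ) : ((starRingEnd ℂ) ξ * v).im = -ip (Complex.I * v) ξ := by
  simp only [ip_eq, Complex.mul_im, Complex.mul_re, Complex.conj_re, Complex.conj_im,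
    Complex.I_re, Complex.I_im]
  ring

/-- If energy and angular momentum are dependent at `z`, the vector field is a rotation. -/
theorem dep (hm : ∀ a, 0 < m a) {z : cm m}
    (hz : ∀ a b, a ≠ b → (z : Ph n).1 a ≠ (z : Ph n).1 b) {α β : ℝ}
    (h : ∀ v : cm m, α * (fderiv ℝ (QQ m) z v).1 + β * (fderiv ℝ (QQ m) z v).2 = 0) :
    (∀ a, (α : ℂ) * (z : Ph n).2 a + β * (Complex.I * (z : Ph n).1 a) = 0) ∧
    ∀ a, (α : ℂ) * acc m (z : Ph n).1 a + β * (Complex.I * (z : Ph n).2 a) = 0 := by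
  have hsum : ∀ w : Fin n → ℂ, ∑ a, m a * ip (w a) (w a) = 0 → ∀ a, w a = 0 := by
    intro w hw a
    have h1 : ∀ a ∈ univ, 0 ≤ m a * ip (w a) (w a) := fun a _ => by
      rw [ip_self]; have := hm a; positivity
    have h2 := (Finset.sum_eq_zero_iff_of_nonneg h1).mp hw a (mem_univ a)
    rw [ip_self] at h2
    have h3 : ‖w a‖ ^ 2 = 0 := by
      rcases mul_eq_zero.mp h2 with h | h
      · exact absurd h (hm a).ne'
      · exact h
    exact norm_eq_zero.mp (pow_eq_zero_iff (two_ne_zero) |>.mp h3)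
  have hzm := mem_cm.mp z.2
  have ip_add : ∀ a b c : ℂ, ip (a + b) c = ip a c + ip b c := by
    intro a b c; simp only [ip_eq, Complex.add_re, Complex.add_im]; ring
  have ip_real : ∀ (r : ℝ) (b c : ℂ), ip ((r : ℂ) * b) c = r * ip b c := by
    intro r b c
    simp only [ip_eq, Complex.mul_re, Complex.mul_im, Complex.ofReal_re, Complex.ofReal_im]; ring
  constructor
  · set w : Fin n → ℂ := fun a => (α : ℂ) * (z : Ph n).2 a + β * (Complex.I * (z : Ph n).1 a) with hw
    have hwm : ((0, w) : Ph n) ∈ cm m := by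
      refine mem_cm.mpr ⟨by simp, ?_⟩
      have : ∑ a, (m a : ℂ) * w a = α * ∑ a, (m a : ℂ) * (z : Ph n).2 a +
          β * Complex.I * ∑ a, (m a : ℂ) * (z : Ph n).1 a := by
        rw [Finset.mul_sum, Finset.mul_sum, ← Finset.sum_add_distrib]
        exact Finset.sum_congr rfl fun a _ => by rw [hw]; ring
      change ∑ a, (m a : ℂ) * w a = 0
      rw [this, hzm.1, hzm.2]; simp
    have h1 := h ⟨(0, w), hwm⟩
    rw [QQ_deriv hz] at h1
    apply hsum w
    rw [← h1]
    have e1 : ∑ a, m a * ip (acc m (z : Ph n).1 a) ((0 : Fin n → ℂ) a) = 0 :=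
      Finset.sum_eq_zero fun a _ => by simp [ip_eq]
    simp only
    rw [e1, sub_zero, Finset.mul_sum, Finset.mul_sum, ← Finset.sum_add_distrib]
    refine Finset.sum_congr rfl fun a _ => ?_
    have e2 : ((starRingEnd ℂ) ((0 : Fin n → ℂ) a) * (z : Ph n).2 a +
        (starRingEnd ℂ) ((z : Ph n).1 a) * w a).im = ip (Complex.I * (z : Ph n).1 a) (w a) := by
      rw [← ip_I]; simp
    rw [e2]
    have e3 : ip (w a) (w a) = α * ip ((z : Ph n).2 a) (w a) +
        β * ip (Complex.I * (z : Ph n).1 a) (w a) := by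
      conv_lhs => rw [show w a = (α : ℂ) * (z : Ph n).2 a + β * (Complex.I * (z : Ph n).1 a) from rfl]
      rw [ip_add, ip_real, ip_real]
    rw [e3]
    ring
  · set w : Fin n → ℂ := fun a => (α : ℂ) * acc m (z : Ph n).1 a + β * (Complex.I * (z : Ph n).2 a)
      with hw
    have hwm : ((w, 0) : Ph n) ∈ cm m := by
      refine mem_cm.mpr ⟨?_, by simp⟩
      have : ∑ a, (m a : ℂ) * w a = α * ∑ a, (m a : ℂ) * acc m (z : Ph n).1 a +
          β * Complex.I * ∑ a, (m a : ℂ) * (z : Ph n).2 a := by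
        rw [Finset.mul_sum, Finset.mul_sum, ← Finset.sum_add_distrib]
        exact Finset.sum_congr rfl fun a _ => by rw [hw]; ring
      change ∑ a, (m a : ℂ) * w a = 0
      rw [this, hzm.2, sum_acc]; simp
    have h1 := h ⟨(w, 0), hwm⟩
    rw [QQ_deriv hz] at h1
    apply hsum w
    have e1 : ∑ a, m a * ip ((z : Ph n).2 a) ((0 : Fin n → ℂ) a) = 0 :=
      Finset.sum_eq_zero fun a _ => by simp [ip_eq]
    simp only at h1
    rw [e1, zero_sub] at h1
    have h2 : ∑ a, m a * ip (w a) (w a) = α * ∑ a, m a * ip (acc m (z : Ph n).1 a) (w a) -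
        β * ∑ a, m a * ((starRingEnd ℂ) (w a) * (z : Ph n).2 a +
          (starRingEnd ℂ) ((z : Ph n).1 a) * (0 : Fin n → ℂ) a).im := by
      rw [Finset.mul_sum, Finset.mul_sum, ← Finset.sum_sub_distrib]
      refine Finset.sum_congr rfl fun a _ => ?_
      have e2 : ((starRingEnd ℂ) (w a) * (z : Ph n).2 a +
          (starRingEnd ℂ) ((z : Ph n).1 a) * (0 : Fin n → ℂ) a).im =
          - ip (Complex.I * (z : Ph n).2 a) (w a) := by
        rw [← ip_I']; simp
      rw [e2]
      have e3 : ip (w a) (w a) = α * ip (acc m (z : Ph n).1 a) (w a) +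
          β * ip (Complex.I * (z : Ph n).2 a) (w a) := by
        conv_lhs => rw [show w a = (α : ℂ) * acc m (z : Ph n).1 a +
          β * (Complex.I * (z : Ph n).2 a) from rfl]
        rw [ip_add, ip_real, ip_real]
      rw [e3]
      ring
    rw [h2]
    linarith [h1]

/-- Outside of relative equilibria the derivatives of energy and angular momentum are independent. -/
theorem surj (hn : 2 ≤ n) (hm : ∀ a, 0 < m a) {x : ℝ → Ph n} (hx : IsSol m Set.univ x)
    (hre : ¬ IsRelEq x) :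
    Function.Surjective (fderiv ℝ (QQ m) (⟨x 0, sol_cm hx 0⟩ : cm m)) := by
  set z : cm m := ⟨x 0, sol_cm hx 0⟩ with hz
  have hne : ∀ a b, a ≠ b → (z : Ph n).1 a ≠ (z : Ph n).1 b := (hx.mem 0).1
  by_contra hs
  apply hre
  set L : cm m →L[ℝ] ℝ × ℝ := fderiv ℝ (QQ m) z with hL
  have hlt : LinearMap.range (L : cm m →ₗ[ℝ] ℝ × ℝ) < ⊤ := by
    rw [lt_top_iff_ne_top]
    intro h
    exact hs (LinearMap.range_eq_top.mp h)
  obtain ⟨f, hf, hfr⟩ := Submodule.exists_le_ker_of_lt_top _ hlt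
  have hf' : ∀ w : ℝ × ℝ, f w = f (1, 0) * w.1 + f (0, 1) * w.2 := by
    intro w
    have : w = w.1 • ((1, 0) : ℝ × ℝ) + w.2 • ((0, 1) : ℝ × ℝ) := by
      ext <;> simp
    conv_lhs => rw [this]
    rw [map_add, map_smul, map_smul, smul_eq_mul, smul_eq_mul]
    ring
  have h0 : ∀ v, f (1, 0) * (L v).1 + f (0, 1) * (L v).2 = 0 := by
    intro v
    rw [← hf']
    exact hfr ⟨v, rfl⟩
  obtain ⟨h1, h2⟩ := dep hm hne h0
  have hα : f (1, 0) ≠ 0 := by
    intro hα
    have hβ : f (0, 1) ≠ 0 := by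
      intro hβ
      apply hf
      refine LinearMap.ext fun w => ?_
      rw [hf', hα, hβ]
      simp
    have h3 : ∀ a, (z : Ph n).1 a = 0 := by
      intro a
      have := h1 a
      rw [hα] at this
      simpa [hβ] using this
    have : (z : Ph n).1 ⟨0, by omega⟩ ≠ (z : Ph n).1 ⟨1, by omega⟩ :=
      hne _ _ (by simp [Fin.ext_iff])
    exact this (by rw [h3, h3])
  set lam : ℝ := -(f (0, 1)) / f (1, 0) with hlam
  have hl : (f (1, 0) : ℂ) * lam = -(f (0, 1) : ℂ) := by
    have : f (1, 0) * lam = -(f (0, 1)) := by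
      rw [hlam, mul_div_assoc', mul_comm, mul_div_assoc, div_self hα, mul_one]
    exact_mod_cast this
  have hα' : (f (1, 0) : ℂ) ≠ 0 := by exact_mod_cast hα
  have hvf : vf m (z : Ph n) = ((lam : ℂ) * Complex.I) • (z : Ph n) := by
    unfold vf
    refine Prod.ext (funext fun a => ?_) (funext fun a => ?_)
    · change (z : Ph n).2 a = ((lam : ℂ) * Complex.I) * (z : Ph n).1 a
      have := h1 a
      apply mul_left_cancel₀ hα'
      linear_combination this - (Complex.I * (z : Ph n).1 a) * hl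
    · change acc m (z : Ph n).1 a = ((lam : ℂ) * Complex.I) * (z : Ph n).2 a
      have := h2 a
      apply mul_left_cancel₀ hα'
      linear_combination this - (Complex.I * (z : Ph n).2 a) * hl
  -- the rotating solution
  have hy : IsSol m Set.univ (fun t : ℝ => Complex.exp (t * lam * Complex.I) • (z : Ph n)) := by
    have hnorm : ∀ t : ℝ, ‖Complex.exp (t * lam * Complex.I)‖ = 1 := by
      intro t
      rw [show (t : ℂ) * lam * Complex.I = ((t * lam : ℝ) : ℂ) * Complex.I by push_cast; ring]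
      exact norm_expI _
    refine isSol_of (fun t => smul_mem (hnorm t) (hx.mem 0)) (fun t => ?_)
    have h1 : HasDerivAt (fun t : ℝ => Complex.exp (t * lam * Complex.I))
        (Complex.exp (t * lam * Complex.I) * (lam * Complex.I)) t := by
      have h2 : HasDerivAt (fun t : ℝ => (t : ℂ) * lam * Complex.I) (lam * Complex.I) t := by
        have := ((Complex.ofRealCLM.hasDerivAt (x := t)).mul_const (lam : ℂ)).mul_const Complex.I
        simpa using this
      exact h2.cexp
    have h3 := h1.smul_const (z : Ph n)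
    have h4 : (Complex.exp (t * lam * Complex.I) * (lam * Complex.I)) • (z : Ph n) =
        vf m (Complex.exp (t * lam * Complex.I) • (z : Ph n)) := by
      rw [vf_smul (hnorm t), hvf, smul_smul]
    rw [h4] at h3
    exact h3
  have hxy := sol_unique hx hy (t₀ := 0) (by simp [hz])
  intro t a b
  rw [hxy]
  have hnorm : ∀ t : ℝ, ‖Complex.exp (t * lam * Complex.I)‖ = 1 := by
    intro t
    rw [show (t : ℂ) * lam * Complex.I = ((t * lam : ℝ) : ℂ) * Complex.I by push_cast; ring]
    exact norm_expI _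
  simp only [Prod.smul_fst, Pi.smul_apply, ← smul_sub, norm_smul, hnorm]

end Pool.Agent.D0H95.NB
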