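import Mathlib

/-!
Persistence of twisted fixed points: an implicit function theorem for maps which preserve two
functions.
-/

set_option autoImplicit false

open Filter Topology

namespace Pool.Agent.D0H95.NB

theorem persist {E : Type} [NormedAddCommGroup E] [NormedSpace ℝ E] [FiniteDimensional ℝ E]
    {F : ℝ × E → E} {Q : E → ℝ × ℝ} {z0 : E} {F' : ℝ × E →L[ℝ] E} {Q' : E →L[ℝ] ℝ × ℝ}
    (hF : HasStrictFDerivAt F F' (0, z0)) (h0 : F (0, z0) = z0)
    (hQ : HasStrictFDerivAt Q Q' z0) (hQs : Function.Surjective Q')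
    (hinv : ∀ᶠ p in 𝓝 ((0:ℝ), z0), Q (F p) = Q p.2)
    (hker : Module.finrank ℝ (LinearMap.ker
      ((F'.comp (ContinuousLinearMap.inr ℝ ℝ E) - ContinuousLinearMap.id ℝ E : E →L[ℝ] E) :
        E →ₗ[ℝ] E)) ≤ 2)
    {U : Set E} (hU : U ∈ 𝓝 z0) :
    ∀ᶠ s in 𝓝 (0:ℝ), ∃ z ∈ U, F (s, z) = z := by
  have : CompleteSpace E := FiniteDimensional.complete ℝ E
  set A : E →L[ℝ] E := F'.comp (ContinuousLinearMap.inr ℝ ℝ E) with hA
  -- `Q' ∘ A = Q'`
  have hQA : Q'.comp A = Q' := by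
    have h1 : HasStrictFDerivAt (fun z : E => F (0, z)) A z0 := by
      have hin : HasStrictFDerivAt (fun z : E => ((0:ℝ), z)) (ContinuousLinearMap.inr ℝ ℝ E) z0 :=
        (ContinuousLinearMap.inr ℝ ℝ E).hasStrictFDerivAt
      exact HasStrictFDerivAt.comp z0 hF hin
    have h2 : HasFDerivAt (fun z : E => Q (F (0, z))) (Q'.comp A) z0 := by
      have h3 : HasFDerivAt Q Q' (F (0, z0)) := by rw [h0]; exact hQ.hasFDerivAt
      exact HasFDerivAt.comp z0 h3 h1.hasFDerivAt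
    have h4 : (fun z : E => Q (F (0, z))) =ᶠ[𝓝 z0] Q := by
      have : Tendsto (fun z : E => ((0:ℝ), z)) (𝓝 z0) (𝓝 (0, z0)) := by
        exact (Continuous.prodMk_right (0:ℝ)).tendsto z0
      exact this.eventually hinv
    exact (h2.congr_of_eventuallyEq h4.symm).unique hQ.hasFDerivAt
  -- the range of `A - 1` is the kernel of `Q'`
  set B : E →ₗ[ℝ] E := ((A - ContinuousLinearMap.id ℝ E : E →L[ℝ] E) : E →ₗ[ℝ] E) with hB
  have hBapp : ∀ v, B v = A v - v := fun v => rfl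
  have hrange : LinearMap.range B = LinearMap.ker (Q' : E →ₗ[ℝ] ℝ × ℝ) := by
    apply Submodule.eq_of_le_of_finrank_le
    · rintro w ⟨v, rfl⟩
      rw [LinearMap.mem_ker, hBapp]
      have : Q' (A v) = Q' v := congrArg (fun L : E →L[ℝ] ℝ × ℝ => L v) hQA
      simp [this]
    · have e1 := LinearMap.finrank_range_add_finrank_ker B
      have e2 := LinearMap.finrank_range_add_finrank_ker (Q' : E →ₗ[ℝ] ℝ × ℝ)
      have e3 : LinearMap.range (Q' : E →ₗ[ℝ] ℝ × ℝ) = ⊤ := LinearMap.range_eq_top.mpr hQs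
      rw [e3, finrank_top] at e2
      have e4 : Module.finrank ℝ (ℝ × ℝ) = 2 := by simp
      omega
  -- a right inverse of `Q'`
  obtain ⟨σ, hσ⟩ : ∃ σ : ℝ × ℝ →L[ℝ] E, ∀ w, Q' (σ w) = w := by
    obtain ⟨σ, hσ⟩ := (Q' : E →ₗ[ℝ] ℝ × ℝ).exists_rightInverse_of_surjective
      (LinearMap.range_eq_top.mpr hQs)
    refine ⟨LinearMap.toContinuousLinearMap σ, fun w => ?_⟩
    have := congrArg (fun L : ℝ × ℝ →ₗ[ℝ] ℝ × ℝ => L w) hσ
    simpa using this
  -- projection on the kernel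
  have hmem : ∀ v, v - σ (Q' v) ∈ LinearMap.ker (Q' : E →ₗ[ℝ] ℝ × ℝ) := by
    intro v
    rw [LinearMap.mem_ker]
    simp [hσ]
  set K : Submodule ℝ E := LinearMap.ker (Q' : E →ₗ[ℝ] ℝ × ℝ) with hK
  set P : E →L[ℝ] K := (ContinuousLinearMap.id ℝ E - σ.comp Q').codRestrict K
    (fun v => by simpa using hmem v) with hP
  have hPapp : ∀ v, ((P v : K) : E) = v - σ (Q' v) := fun v => rfl
  have hPK : ∀ w : K, P (w : E) = w := by
    intro w
    apply Subtype.ext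
    rw [hPapp]
    have : Q' (w : E) = 0 := w.2
    rw [this]; simp
  -- the map `H`
  set H : ℝ × E → ℝ × K := fun p => (p.1, P (F p - p.2)) with hH
  set H' : ℝ × E →L[ℝ] ℝ × K :=
    (ContinuousLinearMap.fst ℝ ℝ E).prod (P.comp (F' - ContinuousLinearMap.snd ℝ ℝ E)) with hH'
  have hHd : HasStrictFDerivAt H H' (0, z0) := by
    have h1 : HasStrictFDerivAt (fun p : ℝ × E => p.1) (ContinuousLinearMap.fst ℝ ℝ E) (0, z0) :=
      hasStrictFDerivAt_fst
    have h2 : HasStrictFDerivAt (fun p : ℝ × E => p.2) (ContinuousLinearMap.snd ℝ ℝ E) (0, z0) :=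
      hasStrictFDerivAt_snd
    exact h1.prodMk (P.hasStrictFDerivAt.comp (0, z0) (hF.sub h2))
  have hsurj : LinearMap.range (H' : ℝ × E →ₗ[ℝ] ℝ × K) = ⊤ := by
    rw [LinearMap.range_eq_top]
    rintro ⟨r, w⟩
    have hw : ((w - P (F' (r, 0)) : K) : E) ∈ LinearMap.range B := by
      rw [hrange]; exact (w - P (F' (r, 0))).2
    obtain ⟨v, hv⟩ := hw
    refine ⟨(r, v), ?_⟩
    have h1 : F' (r, v) = F' (r, 0) + A v := by
      rw [hA, ContinuousLinearMap.comp_apply, ContinuousLinearMap.inr_apply, ← map_add]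
      simp
    have h2 : H' (r, v) = (r, P (F' (r, v) - v)) := rfl
    change H' (r, v) = (r, w)
    rw [h2, h1]
    have h3 : F' (r, 0) + A v - v = F' (r, 0) + B v := by rw [hBapp]; abel
    rw [h3, hv, map_add, hPK]
    simp
  have hmap := hHd.map_nhds_eq_of_surj hsurj
  have hH0 : H (0, z0) = (0, 0) := by
    simp [hH, h0]
  rw [hH0] at hmap
  -- the strict derivative of `Q`
  obtain ⟨ε, hε0, hε⟩ : ∃ ε : ℝ, 0 < ε ∧ ε * ‖σ‖ < 1 := by
    refine ⟨1 / (2 * (‖σ‖ + 1)), by positivity, ?_⟩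
    rw [div_mul_eq_mul_div, one_mul, div_lt_one (by positivity)]
    nlinarith [norm_nonneg σ]
  have hQε := hQ.isLittleO.def hε0
  have hcont : Tendsto (fun p : ℝ × E => (F p, p.2)) (𝓝 (0, z0)) (𝓝 (z0, z0)) := by
    have h1 : Tendsto F (𝓝 (0, z0)) (𝓝 z0) := by
      have := hF.continuousAt.tendsto
      rwa [h0] at this
    exact h1.prodMk_nhds (continuous_snd.tendsto (0, z0))
  have hV : ∀ᶠ p in 𝓝 ((0:ℝ), z0), p.2 ∈ U ∧ Q (F p) = Q p.2 ∧
      ‖Q (F p) - Q p.2 - Q' (F p - p.2)‖ ≤ ε * ‖F p - p.2‖ :=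
    (((continuous_snd.tendsto ((0:ℝ), z0)).eventually hU).and
      (hinv.and (hcont.eventually hQε)))
  have himg : H '' {p | p.2 ∈ U ∧ Q (F p) = Q p.2 ∧
      ‖Q (F p) - Q p.2 - Q' (F p - p.2)‖ ≤ ε * ‖F p - p.2‖} ∈ 𝓝 ((0:ℝ), (0:K)) := by
    rw [← hmap]
    exact image_mem_map hV
  have hs : Tendsto (fun s : ℝ => (s, (0:K))) (𝓝 0) (𝓝 (0, 0)) :=
    (Continuous.prodMk_left (0:K)).tendsto 0
  filter_upwards [hs.eventually himg] with s hs'
  obtain ⟨p, ⟨hpU, hpQ, hpε⟩, hpH⟩ := hs'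
  have h1 : p.1 = s := congrArg Prod.fst hpH
  have h2 : P (F p - p.2) = 0 := congrArg Prod.snd hpH
  have h3 : F p - p.2 = σ (Q' (F p - p.2)) := by
    have := congrArg (fun w : K => (w : E)) h2
    simp only [hPapp] at this
    exact sub_eq_zero.mp (by simpa using this)
  set w := Q' (F p - p.2) with hw
  have h4 : ‖w‖ ≤ ε * ‖σ‖ * ‖w‖ := by
    rw [hpQ, sub_self, zero_sub, norm_neg] at hpε
    calc ‖w‖ ≤ ε * ‖F p - p.2‖ := hpε
      _ = ε * ‖σ w‖ := by rw [← h3]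
      _ ≤ ε * (‖σ‖ * ‖w‖) := by gcongr; exact σ.le_opNorm w
      _ = ε * ‖σ‖ * ‖w‖ := by ring
  have h5 : w = 0 := by
    by_contra hne
    have : 0 < ‖w‖ := norm_pos_iff.mpr hne
    nlinarith
  refine ⟨p.2, hpU, ?_⟩
  have h6 : F p = p.2 := by
    rw [h5, map_zero] at h3
    exact sub_eq_zero.mp h3
  rw [← h1]
  exact h6

end Pool.Agent.D0H95.NB
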