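import Pool.Agent.D0H95.NB.Var
import Pool.Agent.D0H95.NB.Ind
import Pool.Agent.D0H95.NB.Pers
import Pool.Agent.W821.TB.Rigid

/-!
Nondegenerate relative periodic orbits persist with every nearby rotation; Lyapunov stable ones are
degenerate.
-/

set_option autoImplicit false

namespace Pool.Agent.D0H95.NB

open Pool.Agent.W821.TB Finset Filter Topology

variable {n : ℕ} {m : Fin n → ℝ}

/-- `ξ` solves the variational equation along `x`, in the centre of mass frame. -/
def IsJac (m : Fin n → ℝ) (x ξ : ℝ → Ph n) : Prop :=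
  ∀ t, ξ t ∈ cm m ∧ HasDerivAt ξ (fderiv ℝ (vf m) (x t) (ξ t)) t

/-- The only twisted periodic Jacobi fields are the trivial ones. -/
def Nondeg (m : Fin n → ℝ) (x : ℝ → Ph n) (T : ℝ) (c : ℂ) : Prop :=
  ∀ ξ : ℝ → Ph n, IsJac m x ξ → (∀ t, ξ (t + T) = c • ξ t) →
    ∃ α β : ℝ, ∀ t, ξ t = α • vf m (x t) + β • (Complex.I • x t)

theorem energy_smul {c : ℂ} (hc : ‖c‖ = 1) (z : Ph n) : energy m (c • z) = energy m z := by
  unfold energy upot
  have h1 : ∀ a, ‖(c • z).2 a‖ = ‖z.2 a‖ := fun a => by simp [hc]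
  have h2 : ∀ a b, ‖(c • z).1 b - (c • z).1 a‖ = ‖z.1 b - z.1 a‖ := by
    intro a b
    have : (c • z).1 b - (c • z).1 a = c * (z.1 b - z.1 a) := by simp [mul_sub]
    rw [this, norm_mul, hc, one_mul]
  simp only [h1, h2]

theorem ang_smul {c : ℂ} (hc : ‖c‖ = 1) (z : Ph n) : ang m (c • z) = ang m z := by
  unfold ang
  refine Finset.sum_congr rfl fun a _ => ?_
  have h1 : (starRingEnd ℂ) ((c • z).1 a) * (c • z).2 a = (starRingEnd ℂ) (z.1 a) * z.2 a := by
    have h2 : (starRingEnd ℂ) c * c = 1 := conj_mul_self_of_norm hc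
    change (starRingEnd ℂ) (c * z.1 a) * (c * z.2 a) = _
    rw [map_mul]
    linear_combination ((starRingEnd ℂ) (z.1 a) * z.2 a) * h2
  rw [h1]

theorem QQ_smul {c : ℂ} (hc : ‖c‖ = 1) (z : cm m) : QQ m (c • z) = QQ m z := by
  unfold QQ
  have h : ((c • z : cm m) : Ph n) = c • (z : Ph n) := rfl
  rw [h, energy_smul hc, ang_smul hc]

/-- The orbit of a relative periodic solution lies in one of the regions. -/
theorem exists_region {x : ℝ → Ph n} (hx : IsSol m Set.univ x) {T : ℝ} (hT : 0 < T) {c : ℂ}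
    (hc : ‖c‖ = 1) (hper : ∀ t, x (t + T) = c • x t) :
    ∃ R δ : ℝ, 0 < R ∧ 0 < δ ∧ ∀ t, x t ∈ (Rg R δ : Set (Ph n)) := by
  have h1 : IsCompact (Set.range fun t => NS (x t)) := by
    have hp : Function.Periodic (fun t => NS (x t)) T := fun t => by
      simp only; rw [hper, NS_smul hc]
    exact hp.compact_of_continuous hT.ne' (contDiff_NS.continuous.comp hx.continuous)
  obtain ⟨R, hR⟩ := h1.bddAbove
  have hδ : ∀ a b, ∃ δ : ℝ, 0 < δ ∧ (a ≠ b → ∀ t, δ < ‖(x t).1 b - (x t).1 a‖ ^ 2) := by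
    intro a b
    by_cases hab : a = b
    · exact ⟨1, one_pos, fun h => absurd hab h⟩
    · have hcont : Continuous (fun t => ‖(x t).1 b - (x t).1 a‖ ^ 2) := by
        have := hx.continuous
        fun_prop
      have hp : Function.Periodic (fun t => ‖(x t).1 b - (x t).1 a‖ ^ 2) T := fun t => by
        simp only
        rw [hper]
        have : (c • x t).1 b - (c • x t).1 a = c * ((x t).1 b - (x t).1 a) := by simp [mul_sub]
        rw [this, norm_mul, hc, one_mul]
      have h2 := hp.compact_of_continuous hT.ne' hcont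
      obtain ⟨r, ⟨t0, ht0⟩, hr⟩ := h2.exists_isLeast (Set.range_nonempty _)
      have hpos : 0 < r := by
        rw [← ht0]
        have : (x t0).1 b - (x t0).1 a ≠ 0 := sub_ne_zero.mpr ((hx.mem t0).1 b a (Ne.symm hab))
        positivity
      refine ⟨r / 2, by positivity, fun _ t => ?_⟩
      have := hr ⟨t, rfl⟩
      simp only at this
      linarith
  choose δ hδ0 hδ1 using hδ
  obtain ⟨ε, hε0, hε⟩ : ∃ ε : ℝ, 0 < ε ∧ ∀ p : Fin n × Fin n, ε ≤ δ p.1 p.2 := by
    rcases isEmpty_or_nonempty (Fin n × Fin n) with h | h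
    · exact ⟨1, one_pos, fun p => h.elim p⟩
    · obtain ⟨p, hp⟩ := Finite.exists_min (fun p : Fin n × Fin n => δ p.1 p.2)
      exact ⟨δ p.1 p.2, hδ0 _ _, hp⟩
  refine ⟨|R| + 1, ε, by positivity, hε0, fun t => ⟨?_, fun a b hab => ?_⟩⟩
  · have := hR ⟨t, rfl⟩
    simp only at this
    have h3 := le_abs_self R
    linarith
  · exact lt_of_le_of_lt (hε (a, b)) (hδ1 a b hab t)

/-- **Persistence.** -/
theorem persistence (hn : 2 ≤ n) (hm : ∀ a, 0 < m a) {x : ℝ → Ph n} (hx : IsSol m Set.univ x)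
    (hre : ¬ IsRelEq x) {T : ℝ} (hT : 0 < T) {c : ℂ} (hc : ‖c‖ = 1)
    (hper : ∀ t, x (t + T) = c • x t) (hnd : Nondeg m x T c) {U : Set (Ph n)}
    (hU : U ∈ 𝓝 (x 0)) :
    ∀ᶠ s : ℝ in 𝓝 0, ∃ y : ℝ → Ph n, IsSol m Set.univ y ∧ y 0 ∈ U ∧
      ∀ t, y (t + T) = (Complex.exp (s * Complex.I) * c) • y t := by
  obtain ⟨R, δ, hR, hδ, hRg⟩ := exists_region hx hT hc hper
  obtain ⟨P, hPR, hPδ⟩ := exists_pk m hR hδ
  have hc0 : c ≠ 0 := by rintro rfl; simp at hc
  have hxS : ∀ t, x t ∈ P.S := by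
    intro t
    unfold Pk.S
    rw [hPR, hPδ]
    exact hRg t
  set z0 : cm m := ⟨x 0, sol_cm hx 0⟩ with hz0
  have hg : ∀ t, ((P.g t z0 : cm m) : Ph n) = x t := P.of_sol hx hxS
  have hS0 : ∀ t, ((P.g t z0 : cm m) : Ph n) ∈ P.S := fun t => by rw [hg]; exact hxS t
  have hgT : P.g T z0 = c • z0 := by
    apply Subtype.ext
    rw [hg]
    have := hper 0
    rw [zero_add] at this
    exact this
  -- the map
  set e : ℝ → ℂ := fun s => Complex.exp (-(s * Complex.I)) * c⁻¹ with he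
  have he_norm : ∀ s, ‖e s‖ = 1 := by
    intro s
    rw [he]
    simp only
    rw [norm_mul, norm_inv, hc, inv_one, mul_one,
      show -((s : ℂ) * Complex.I) = ((-s : ℝ) : ℂ) * Complex.I by push_cast; ring]
    exact norm_expI _
  have hed : ContDiff ℝ 1 e := by
    rw [he]
    have h1 : ContDiff ℝ 1 (fun s : ℝ => -((s : ℂ) * Complex.I)) :=
      (Complex.ofRealCLM.contDiff.mul contDiff_const).neg
    exact h1.cexp.mul contDiff_const
  set F : ℝ × cm m → cm m := fun p => e p.1 • P.g T p.2 with hF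
  have hFd : ContDiff ℝ 1 F := by
    have h1 : ContDiff ℝ 1 (fun p : ℝ × cm m =>
        (ContinuousLinearMap.lsmul ℝ ℂ : ℂ →L[ℝ] cm m →L[ℝ] cm m) (e p.1)) :=
      ContDiff.comp (g := fun w : ℂ => (ContinuousLinearMap.lsmul ℝ ℂ : ℂ →L[ℝ] cm m →L[ℝ] cm m) w)
        (f := fun p : ℝ × cm m => e p.1) (ContinuousLinearMap.contDiff _)
        (hed.comp contDiff_fst)
    exact h1.clm_apply ((P.cd_t T).comp contDiff_snd)
  have hFs : HasStrictFDerivAt F (fderiv ℝ F (0, z0)) (0, z0) :=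
    hFd.contDiffAt.hasStrictFDerivAt one_ne_zero
  have e0 : e 0 = c⁻¹ := by rw [he]; simp
  have hF0 : F (0, z0) = z0 := by
    rw [hF]
    simp only
    rw [e0, hgT, smul_smul, inv_mul_cancel₀ hc0, one_smul]
  have hne : ∀ a b, a ≠ b → (z0 : Ph n).1 a ≠ (z0 : Ph n).1 b := (hx.mem 0).1
  have hQs : HasStrictFDerivAt (QQ m) (fderiv ℝ (QQ m) z0) z0 :=
    (contDiffAt_QQ hne).hasStrictFDerivAt one_ne_zero
  have hnear := P.near (z0 := z0) (T := T) (fun t _ => hS0 t)
  have hinv : ∀ᶠ p in 𝓝 ((0:ℝ), z0), QQ m (F p) = QQ m p.2 := by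
    have h1 : Tendsto (fun p : ℝ × cm m => p.2) (𝓝 ((0:ℝ), z0)) (𝓝 z0) :=
      continuous_snd.tendsto _
    filter_upwards [h1.eventually hnear] with p hp
    rw [hF]
    simp only
    rw [QQ_smul (he_norm _)]
    unfold QQ
    rw [P.energy_eq hT.le hp, P.ang_eq hT.le hp]
  -- the kernel
  have hker : Module.finrank ℝ (LinearMap.ker
      (((fderiv ℝ F (0, z0)).comp (ContinuousLinearMap.inr ℝ ℝ (cm m)) -
        ContinuousLinearMap.id ℝ (cm m) : cm m →L[ℝ] cm m) : cm m →ₗ[ℝ] cm m)) ≤ 2 := by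
    classical
    set u1 : cm m := ⟨vf m (x 0), vf_mem (sol_cm hx 0)⟩ with hu1
    set u2 : cm m := Complex.I • z0 with hu2
    have hsub : LinearMap.ker
      (((fderiv ℝ F (0, z0)).comp (ContinuousLinearMap.inr ℝ ℝ (cm m)) -
        ContinuousLinearMap.id ℝ (cm m) : cm m →L[ℝ] cm m) : cm m →ₗ[ℝ] cm m) ≤
        Submodule.span ℝ (({u1, u2} : Finset (cm m)) : Set (cm m)) := by
      intro v hv
      have hv1 : (fderiv ℝ F (0, z0)) (0, v) = v := by
        have : (fderiv ℝ F (0, z0)) (0, v) - v = 0 := hv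
        exact sub_eq_zero.mp this
      -- the partial derivative
      have hpd : (fderiv ℝ F (0, z0)) (0, v) = c⁻¹ • fderiv ℝ (P.g T) z0 v := by
        have h1 : HasFDerivAt (fun z : cm m => F (0, z))
            ((fderiv ℝ F (0, z0)).comp (ContinuousLinearMap.inr ℝ ℝ (cm m))) z0 := by
          have hin : HasFDerivAt (fun z : cm m => ((0:ℝ), z))
              (ContinuousLinearMap.inr ℝ ℝ (cm m)) z0 :=
            (ContinuousLinearMap.inr ℝ ℝ (cm m)).hasFDerivAt
          exact HasFDerivAt.comp z0 hFs.hasFDerivAt hin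
        have h2 : HasFDerivAt (fun z : cm m => F (0, z))
            ((rotL m c⁻¹).comp (fderiv ℝ (P.g T) z0)) z0 := by
          have h3 : (fun z : cm m => F (0, z)) = fun z => rotL m c⁻¹ (P.g T z) := by
            funext z
            rw [hF]
            simp only
            rw [e0]
            rfl
          rw [h3]
          exact (rotL m c⁻¹).hasFDerivAt.comp z0 (P.diff T z0)
        exact congrArg (fun L : cm m →L[ℝ] cm m => L v) (h1.unique h2)
      have hv2 : fderiv ℝ (P.g T) z0 v = c • v := by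
        rw [hpd] at hv1
        rw [← hv1, smul_smul, mul_inv_cancel₀ hc0, one_smul]
        rw [hv1]
      have hj : IsJac m x (fun t => ((fderiv ℝ (P.g t) z0 v : cm m) : Ph n)) := by
        intro t
        refine ⟨(fderiv ℝ (P.g t) z0 v).2, ?_⟩
        have := P.jac hS0 v t
        rw [hg t] at this
        exact this
      have hjp : ∀ t, ((fderiv ℝ (P.g (t + T)) z0 v : cm m) : Ph n) =
          c • ((fderiv ℝ (P.g t) z0 v : cm m) : Ph n) := by
        intro t
        rw [P.D_add, hgT, hv2, P.D_smul hc]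
        rfl
      obtain ⟨α, β, hαβ⟩ := hnd _ hj hjp
      have h3 : ((fderiv ℝ (P.g 0) z0 v : cm m) : Ph n) =
        α • vf m (x 0) + β • (Complex.I • x 0) := hαβ 0
      rw [P.D_zero] at h3
      have h4 : v = α • u1 + β • u2 := Subtype.ext h3
      rw [h4]
      refine Submodule.add_mem _ (Submodule.smul_mem _ _ (Submodule.subset_span ?_))
        (Submodule.smul_mem _ _ (Submodule.subset_span ?_)) <;> simp
    exact (Submodule.finrank_mono hsub).trans
      ((finrank_span_finset_le_card _).trans Finset.card_le_two)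
  -- conclusion
  have hU' : {z : cm m | (z : Ph n) ∈ U ∧ ∀ t ∈ Set.Icc 0 T, ((P.g t z : cm m) : Ph n) ∈ P.S} ∈
      𝓝 z0 :=
    ((inc m).continuous.continuousAt.eventually (show U ∈ 𝓝 (inc m z0) from hU)).and hnear
  have key := persist hFs hF0 hQs (surj hn hm hx hre) hinv hker hU'
  filter_upwards [key] with s hs
  obtain ⟨z, ⟨hzU, hzS⟩, hz⟩ := hs
  have hd : ‖Complex.exp (s * Complex.I) * c‖ = 1 := by rw [norm_mul, hc, norm_expI, one_mul]
  have hgz : P.g T z = (Complex.exp (s * Complex.I) * c) • z := by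
    have h1 : e s • P.g T z = z := hz
    have h2 : (Complex.exp (s * Complex.I) * c) * e s = 1 := by
      rw [he]
      simp only
      rw [mul_mul_mul_comm, ← Complex.exp_add, add_neg_cancel, Complex.exp_zero, mul_inv_cancel₀ hc0, one_mul]
    conv_rhs => rw [← h1]
    rw [smul_smul, h2, one_smul]
  have hall := P.per_mem hd hT hgz hzS
  refine ⟨fun t => ((P.g t z : cm m) : Ph n), P.sol_of hall, ?_, fun t => ?_⟩
  · simp only; rw [P.hg.zero]; exact hzU
  · simp only
    rw [P.per_smul hd hgz]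
    rfl

/-- **Lyapunov stable orbits are degenerate.** -/
theorem stable_degenerate (hn : 2 ≤ n) (hm : ∀ a, 0 < m a) {x : ℝ → Ph n}
    (hx : IsSol m Set.univ x) (hre : ¬ IsRelEq x) (hst : LyapunovStable m (Set.range x))
    {T : ℝ} (hT : 0 < T) {c : ℂ} (hc : ‖c‖ = 1) (hper : ∀ t, x (t + T) = c • x t) :
    ¬ Nondeg m x T c := by
  intro hnd
  have hdist : ∀ {y : ℝ → Ph n} {d : ℂ}, ‖d‖ = 1 → (∀ t, y (t + T) = d • y t) → DistPer y T := by
    intro y d hd hy t a b
    rw [hy]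
    have : (d • y t).1 a - (d • y t).1 b = d * ((y t).1 a - (y t).1 b) := by simp [mul_sub]
    rw [this, norm_mul, hd, one_mul]
  rcases final hn hm hx hT (hdist hc hper) hst with h | ⟨K, hK, -, U, hUo, hxU, -, hU⟩
  · exact hre h
  -- powers of the rotation
  have hpow : ∀ {y : ℝ → Ph n} {d : ℂ}, IsSol m Set.univ y → y 0 ∈ U → ‖d‖ = 1 →
      (∀ t, y (t + T) = d • y t) → d ^ (2 * K) = 1 := by
    intro y d hy hyU hd hyd
    have h1 := hU y hy hyU T hT (hdist hd hyd) 0
    have h2 := iter_smul hyd (2 * K) 0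
    have h3 : ((2 * K : ℕ) : ℝ) * T = 2 * K * T := by push_cast; ring
    rw [h3, h1] at h2
    obtain ⟨a, ha⟩ := exists_ne_zero hn (hy.mem 0)
    have h4 : (y 0).1 a = d ^ (2 * K) * (y 0).1 a := congrArg (fun z : Ph n => z.1 a) h2
    have h5 : (d ^ (2 * K) - 1) * (y 0).1 a = 0 := by linear_combination -h4
    rcases mul_eq_zero.mp h5 with h | h
    · exact sub_eq_zero.mp h
    · exact absurd h ha
  have hc1 : c ^ (2 * K) = 1 := hpow hx (hxU ⟨0, rfl⟩) hc hper
  have hUn : U ∈ 𝓝 (x 0) := hUo.mem_nhds (hxU ⟨0, rfl⟩)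
  have hp := persistence hn hm hx hre hT hc hper hnd hUn
  obtain ⟨ε, hε0, hε⟩ := Metric.eventually_nhds_iff.mp hp
  have hK0 : (0:ℝ) < K := by exact_mod_cast hK
  set s : ℝ := min (ε / 2) (Real.pi / (2 * K)) with hs
  have hs0 : 0 < s := lt_min (by positivity) (by positivity)
  have hs1 : s < ε := lt_of_le_of_lt (min_le_left _ _) (by linarith)
  have hs2 : 2 * K * s ≤ Real.pi := by
    have : s ≤ Real.pi / (2 * K) := min_le_right _ _
    rw [le_div_iff₀ (by positivity)] at this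
    linarith
  obtain ⟨y, hy, hyU, hyd⟩ := hε (y := s) (by
    rw [Real.dist_eq, sub_zero, abs_of_pos hs0]; exact hs1)
  have hd : ‖Complex.exp (s * Complex.I) * c‖ = 1 := by rw [norm_mul, hc, norm_expI, one_mul]
  have h1 := hpow hy hyU hd hyd
  rw [mul_pow, hc1, mul_one, ← Complex.exp_nat_mul] at h1
  rw [Complex.exp_eq_one_iff] at h1
  obtain ⟨j, hj⟩ := h1
  have h2 : ((2 * K * s : ℝ) : ℂ) * Complex.I = ((j * (2 * Real.pi) : ℝ) : ℂ) * Complex.I := by
    push_cast at hj ⊢
    linear_combination hj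
  have h3 : (2 * K * s : ℝ) = j * (2 * Real.pi) := by
    have := mul_right_cancel₀ Complex.I_ne_zero h2
    exact_mod_cast this
  have h4 : 0 < 2 * K * s := by positivity
  rw [h3] at h4 hs2
  have hpi := Real.pi_pos
  have h5 : (0:ℝ) < j := by
    by_contra h
    have h := not_lt.mp h
    nlinarith
  have h6 : (1:ℝ) ≤ j := by
    have : (0:ℤ) < j := by exact_mod_cast h5
    exact_mod_cast this
  nlinarith

end Pool.Agent.D0H95.NB
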