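import Mathlib

/-!
A curve of fixed points parametrized by the second conserved function.
-/

set_option autoImplicit false

open Filter Topology

namespace Pool.Agent.D0H95.NB

theorem curve {E : Type} [NormedAddCommGroup E] [NormedSpace ℝ E] [FiniteDimensional ℝ E]
    {F : ℝ × E → E} {Q : E → ℝ × ℝ} {z0 : E}
    (hF : ContDiffAt ℝ 1 F (0, z0)) (h0 : F (0, z0) = z0)
    (hQ : ContDiffAt ℝ 1 Q z0) (hQs : Function.Surjective (fderiv ℝ Q z0))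
    (hinv : ∀ᶠ p in 𝓝 ((0:ℝ), z0), Q (F p) = Q p.2)
    (hs : ∀ (s : ℝ) (v : E), fderiv ℝ F (0, z0) (s, v) = v → (fderiv ℝ Q z0 v).2 = 0 → s = 0)
    (hker : ∀ K : Submodule ℝ E, (∀ v ∈ K, fderiv ℝ F (0, z0) (0, v) = v ∧ (fderiv ℝ Q z0 v).2 = 0) →
      Module.finrank ℝ K ≤ 2) :
    ∃ γ : ℝ → ℝ × E, ContDiffAt ℝ 1 γ (Q z0).2 ∧ γ (Q z0).2 = (0, z0) ∧
      ∀ᶠ l in 𝓝 (Q z0).2, F (γ l) = (γ l).2 ∧ (Q (γ l).2).2 = l := by
  have : CompleteSpace E := FiniteDimensional.complete ℝ E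
  set F' := fderiv ℝ F (0, z0) with hF'
  set Q' := fderiv ℝ Q z0 with hQ'
  have hFd : HasFDerivAt F F' (0, z0) := (hF.differentiableAt one_ne_zero).hasFDerivAt
  have hQd : HasStrictFDerivAt Q Q' z0 := hQ.hasStrictFDerivAt one_ne_zero
  -- `Q' ∘ F' = Q' ∘ snd`
  have hQF : ∀ p, Q' (F' p) = Q' p.2 := by
    have h1 : HasFDerivAt (fun p : ℝ × E => Q (F p)) (Q'.comp F') (0, z0) := by
      have h3 : HasFDerivAt Q Q' (F (0, z0)) := by rw [h0]; exact hQd.hasFDerivAt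
      exact h3.comp (0, z0) hFd
    have h2 : HasFDerivAt (fun p : ℝ × E => Q p.2) (Q'.comp (ContinuousLinearMap.snd ℝ ℝ E))
        (0, z0) := by
      have h3 : HasFDerivAt Q Q' ((0:ℝ), z0).2 := hQd.hasFDerivAt
      exact h3.comp ((0:ℝ), z0) hasFDerivAt_snd
    have h3 := (h1.congr_of_eventuallyEq (EventuallyEq.symm hinv)).unique h2
    intro p
    exact congrArg (fun L : ℝ × E →L[ℝ] ℝ × ℝ => L p) h3
  -- a right inverse of `Q'`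
  obtain ⟨σ, hσ⟩ : ∃ σ : ℝ × ℝ →L[ℝ] E, ∀ w, Q' (σ w) = w := by
    obtain ⟨σ, hσ⟩ := (Q' : E →ₗ[ℝ] ℝ × ℝ).exists_rightInverse_of_surjective
      (LinearMap.range_eq_top.mpr hQs)
    refine ⟨LinearMap.toContinuousLinearMap σ, fun w => ?_⟩
    have := congrArg (fun L : ℝ × ℝ →ₗ[ℝ] ℝ × ℝ => L w) hσ
    simpa using this
  -- the kernel
  set B : E →L[ℝ] E × ℝ := ((F'.comp (ContinuousLinearMap.inr ℝ ℝ E)) -
    ContinuousLinearMap.id ℝ E).prod ((ContinuousLinearMap.snd ℝ ℝ ℝ).comp Q') with hB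
  set K : Submodule ℝ E := LinearMap.ker (B : E →ₗ[ℝ] E × ℝ) with hK
  have hmemK : ∀ v, v ∈ K ↔ F' (0, v) = v ∧ (Q' v).2 = 0 := by
    intro v
    rw [hK, LinearMap.mem_ker]
    have : (B : E →ₗ[ℝ] E × ℝ) v = (F' (0, v) - v, (Q' v).2) := rfl
    rw [this, Prod.mk_eq_zero, sub_eq_zero]
  have hK2 : Module.finrank ℝ K ≤ 2 := hker K fun v hv => (hmemK v).mp hv
  obtain ⟨π, hπ⟩ : ∃ π : E →L[ℝ] K, ∀ w : K, π (w : E) = w := by
    obtain ⟨π, hπ⟩ := K.subtype.exists_leftInverse_of_injective (Submodule.ker_subtype K)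
    refine ⟨LinearMap.toContinuousLinearMap π, fun w => ?_⟩
    exact congrArg (fun L : K →ₗ[ℝ] K => L w) hπ
  -- the square system
  set Ψ : (ℝ × E) × (ℝ × ℝ) → E × (ℝ × K) :=
    fun p => (F p.1 - p.1.2 + σ p.2, ((Q p.1.2).2, π (p.1.2 - z0))) with hΨ
  set p0 : (ℝ × E) × (ℝ × ℝ) := (((0:ℝ), z0), (0, 0)) with hp0
  have hp1 : ContDiff ℝ 1 (fun p : (ℝ × E) × (ℝ × ℝ) => p.1) := contDiff_fst
  have hp12 : ContDiff ℝ 1 (fun p : (ℝ × E) × (ℝ × ℝ) => p.1.2) := contDiff_snd.comp contDiff_fst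
  have hp2 : ContDiff ℝ 1 (fun p : (ℝ × E) × (ℝ × ℝ) => p.2) := contDiff_snd
  have hFp : ContDiffAt ℝ 1 (fun p : (ℝ × E) × (ℝ × ℝ) => F p.1) p0 :=
    ContDiffAt.comp p0 (g := F) (f := fun p : (ℝ × E) × (ℝ × ℝ) => p.1) hF hp1.contDiffAt
  have hQp : ContDiffAt ℝ 1 (fun p : (ℝ × E) × (ℝ × ℝ) => Q p.1.2) p0 :=
    ContDiffAt.comp p0 (g := Q) (f := fun p : (ℝ × E) × (ℝ × ℝ) => p.1.2) hQ hp12.contDiffAt
  have hΨc : ContDiffAt ℝ 1 Ψ p0 := by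
    refine ContDiffAt.prodMk ?_ (ContDiffAt.prodMk ?_ ?_)
    · exact (hFp.sub hp12.contDiffAt).add ((σ.contDiff.comp hp2).contDiffAt)
    · exact contDiff_snd.contDiffAt.comp p0 hQp
    · exact (π.contDiff.comp (hp12.sub contDiff_const)).contDiffAt
  set Ψ' : (ℝ × E) × (ℝ × ℝ) →L[ℝ] E × (ℝ × K) :=
    ((F'.comp (ContinuousLinearMap.fst ℝ (ℝ × E) (ℝ × ℝ)) -
      (ContinuousLinearMap.snd ℝ ℝ E).comp (ContinuousLinearMap.fst ℝ (ℝ × E) (ℝ × ℝ))) +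
      σ.comp (ContinuousLinearMap.snd ℝ (ℝ × E) (ℝ × ℝ))).prod
    ((((ContinuousLinearMap.snd ℝ ℝ ℝ).comp Q').comp ((ContinuousLinearMap.snd ℝ ℝ E).comp
      (ContinuousLinearMap.fst ℝ (ℝ × E) (ℝ × ℝ)))).prod
    (π.comp ((ContinuousLinearMap.snd ℝ ℝ E).comp (ContinuousLinearMap.fst ℝ (ℝ × E) (ℝ × ℝ)))))
    with hΨ'
  have hΨ'app : ∀ s v w, Ψ' ((s, v), w) = (F' (s, v) - v + σ w, ((Q' v).2, π v)) :=
    fun s v w => rfl
  have hΨd : HasFDerivAt Ψ Ψ' p0 := by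
    have e1 : HasFDerivAt (fun p : (ℝ × E) × (ℝ × ℝ) => p.1)
        (ContinuousLinearMap.fst ℝ (ℝ × E) (ℝ × ℝ)) p0 := hasFDerivAt_fst
    have e2 : HasFDerivAt (fun p : (ℝ × E) × (ℝ × ℝ) => p.2)
        (ContinuousLinearMap.snd ℝ (ℝ × E) (ℝ × ℝ)) p0 := hasFDerivAt_snd
    have e3 : HasFDerivAt (fun p : (ℝ × E) × (ℝ × ℝ) => p.1.2)
        ((ContinuousLinearMap.snd ℝ ℝ E).comp (ContinuousLinearMap.fst ℝ (ℝ × E) (ℝ × ℝ))) p0 :=
      (ContinuousLinearMap.snd ℝ ℝ E).hasFDerivAt.comp p0 e1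
    have e4 : HasFDerivAt (fun p : (ℝ × E) × (ℝ × ℝ) => F p.1)
        (F'.comp (ContinuousLinearMap.fst ℝ (ℝ × E) (ℝ × ℝ))) p0 :=
      HasFDerivAt.comp p0 (g := F) hFd e1
    have e5 : HasFDerivAt (fun p : (ℝ × E) × (ℝ × ℝ) => Q p.1.2)
        (Q'.comp ((ContinuousLinearMap.snd ℝ ℝ E).comp
          (ContinuousLinearMap.fst ℝ (ℝ × E) (ℝ × ℝ)))) p0 :=
      HasFDerivAt.comp p0 (g := Q) hQd.hasFDerivAt e3
    have e6 : HasFDerivAt (fun p : (ℝ × E) × (ℝ × ℝ) => (Q p.1.2).2)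
        ((ContinuousLinearMap.snd ℝ ℝ ℝ).comp (Q'.comp ((ContinuousLinearMap.snd ℝ ℝ E).comp
          (ContinuousLinearMap.fst ℝ (ℝ × E) (ℝ × ℝ))))) p0 :=
      (ContinuousLinearMap.snd ℝ ℝ ℝ).hasFDerivAt.comp p0 e5
    have e7 : HasFDerivAt (fun p : (ℝ × E) × (ℝ × ℝ) => σ p.2)
        (σ.comp (ContinuousLinearMap.snd ℝ (ℝ × E) (ℝ × ℝ))) p0 := σ.hasFDerivAt.comp p0 e2
    have e8 : HasFDerivAt (fun p : (ℝ × E) × (ℝ × ℝ) => π (p.1.2 - z0))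
        (π.comp ((ContinuousLinearMap.snd ℝ ℝ E).comp
          (ContinuousLinearMap.fst ℝ (ℝ × E) (ℝ × ℝ)))) p0 :=
      π.hasFDerivAt.comp p0 (e3.sub_const z0)
    exact ((e4.sub e3).add e7).prodMk (e6.prodMk e8)
  have hinj : Function.Injective (Ψ' : (ℝ × E) × (ℝ × ℝ) →ₗ[ℝ] E × (ℝ × K)) := by
    rw [← LinearMap.ker_eq_bot, LinearMap.ker_eq_bot']
    rintro ⟨⟨s, v⟩, w⟩ h
    have h' : (F' (s, v) - v + σ w, ((Q' v).2, π v)) = (0, ((0:ℝ), (0 : K))) := h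
    have h1 : F' (s, v) - v + σ w = 0 := congrArg Prod.fst h'
    have h2 : (Q' v).2 = 0 := congrArg (fun p => p.2.1) h'
    have h3 : π v = 0 := congrArg (fun p => p.2.2) h'
    have h4 : w = 0 := by
      have := congrArg Q' h1
      rw [map_add, map_sub, hQF, hσ, sub_self, zero_add, map_zero] at this
      exact this
    rw [h4, map_zero, add_zero, sub_eq_zero] at h1
    have h5 : s = 0 := hs s v h1 h2
    rw [h5] at h1
    have h6 : v ∈ K := (hmemK v).mpr ⟨h1, h2⟩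
    have h7 : v = 0 := by
      have := hπ ⟨v, h6⟩
      rw [h3] at this
      exact (congrArg (fun k : K => (k : E)) this).symm
    rw [h4, h5, h7]
    rfl
  have hdim : Module.finrank ℝ ((ℝ × E) × (ℝ × ℝ)) = Module.finrank ℝ (E × (ℝ × K)) := by
    have h1 := LinearMap.finrank_le_finrank_of_injective hinj
    simp only [Module.finrank_prod, Module.finrank_self] at h1 ⊢
    omega
  set Φ : ((ℝ × E) × (ℝ × ℝ)) ≃L[ℝ] (E × (ℝ × K)) :=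
    ((Ψ' : (ℝ × E) × (ℝ × ℝ) →ₗ[ℝ] E × (ℝ × K)).linearEquivOfInjective hinj
      hdim).toContinuousLinearEquiv with hΦ
  have hΦΨ : (Φ : (ℝ × E) × (ℝ × ℝ) →L[ℝ] E × (ℝ × K)) = Ψ' := by
    ext p <;> rfl
  have hΨd2 : HasFDerivAt Ψ (Φ : (ℝ × E) × (ℝ × ℝ) →L[ℝ] E × (ℝ × K)) p0 := by
    rw [hΦΨ]; exact hΨd
  set I := hΨc.localInverse hΨd2 one_ne_zero with hI
  have hI1 : ContDiffAt ℝ 1 I (Ψ p0) := hΨc.to_localInverse hΨd2 one_ne_zero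
  have hI2 : I (Ψ p0) = p0 := hΨc.localInverse_apply_image hΨd2 one_ne_zero
  have hI3 : ∀ᶠ y in 𝓝 (Ψ p0), Ψ (I y) = y :=
    (hΨc.hasStrictFDerivAt' hΨd2 one_ne_zero).eventually_right_inverse
  have hΨp0 : Ψ p0 = (0, ((Q z0).2, 0)) := by
    have : Ψ p0 = (F (0, z0) - z0 + σ (0, 0), ((Q z0).2, π (z0 - z0))) := rfl
    rw [this, h0, sub_self, map_zero, zero_add]
    have : σ ((0:ℝ), (0:ℝ)) = 0 := by
      rw [show ((0:ℝ), (0:ℝ)) = (0 : ℝ × ℝ) from rfl, map_zero]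
    rw [this]
  set ι : ℝ → E × (ℝ × K) := fun l => (0, (l, 0)) with hι
  have hιc : ContDiff ℝ 1 ι := contDiff_const.prodMk (contDiff_id.prodMk contDiff_const)
  have hι0 : ι (Q z0).2 = Ψ p0 := by rw [hΨp0]
  have hIι : ContDiffAt ℝ 1 (fun l => I (ι l)) (Q z0).2 := by
    refine ContDiffAt.comp (Q z0).2 (g := I) (f := ι) ?_ hιc.contDiffAt
    rw [hι0]; exact hI1
  refine ⟨fun l => (I (ι l)).1, contDiff_fst.contDiffAt.comp (Q z0).2 hIι, ?_, ?_⟩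
  · simp only
    rw [hι0, hI2]
  -- the multiplier vanishes
  obtain ⟨ε, hε0, hε⟩ : ∃ ε : ℝ, 0 < ε ∧ ε * ‖σ‖ < 1 := by
    refine ⟨1 / (2 * (‖σ‖ + 1)), by positivity, ?_⟩
    rw [div_mul_eq_mul_div, one_mul, div_lt_one (by positivity)]
    nlinarith [norm_nonneg σ]
  have hQε := hQd.isLittleO.def hε0
  have hcont : Tendsto (fun p : ℝ × E => (F p, p.2)) (𝓝 (0, z0)) (𝓝 (z0, z0)) := by
    have h1 : Tendsto F (𝓝 (0, z0)) (𝓝 z0) := by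
      have := hF.continuousAt.tendsto
      rwa [h0] at this
    exact h1.prodMk_nhds (continuous_snd.tendsto (0, z0))
  have hV : ∀ᶠ p in 𝓝 ((0:ℝ), z0), Q (F p) = Q p.2 ∧
      ‖Q (F p) - Q p.2 - Q' (F p - p.2)‖ ≤ ε * ‖F p - p.2‖ :=
    hinv.and (hcont.eventually hQε)
  have ht : Tendsto (fun l => (I (ι l)).1) (𝓝 (Q z0).2) (𝓝 ((0:ℝ), z0)) := by
    have h1 := hIι.continuousAt.tendsto
    rw [hι0, hI2] at h1
    exact (continuous_fst.tendsto p0).comp h1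
  have ht2 : Tendsto ι (𝓝 (Q z0).2) (𝓝 (Ψ p0)) := by
    rw [← hι0]
    exact hιc.continuous.continuousAt.tendsto
  filter_upwards [ht.eventually hV, ht2.eventually hI3] with l hl1 hl2
  obtain ⟨hpQ, hpε⟩ := hl1
  set p := (I (ι l)).1 with hp
  set w := (I (ι l)).2 with hw
  have e0 : (F p - p.2 + σ w, ((Q p.2).2, π (p.2 - z0))) = (0, (l, (0 : K))) := hl2
  have e1 : F p - p.2 + σ w = 0 := congrArg Prod.fst e0
  have e2 : (Q p.2).2 = l := congrArg (fun p => p.2.1) e0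
  have e3 : F p - p.2 = - σ w := eq_neg_of_add_eq_zero_left e1
  have h4 : ‖w‖ ≤ ε * ‖σ‖ * ‖w‖ := by
    rw [hpQ, sub_self, zero_sub, norm_neg, e3, map_neg, norm_neg, hσ, norm_neg] at hpε
    calc ‖w‖ ≤ ε * ‖σ w‖ := hpε
      _ ≤ ε * (‖σ‖ * ‖w‖) := by gcongr; exact σ.le_opNorm w
      _ = ε * ‖σ‖ * ‖w‖ := by ring
  have h5 : w = 0 := by
    by_contra hne
    have : 0 < ‖w‖ := norm_pos_iff.mpr hne
    nlinarith
  refine ⟨?_, e2⟩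
  rw [h5, map_zero, neg_zero] at e3
  exact sub_eq_zero.mp e3

end Pool.Agent.D0H95.NB
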