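import Pool.Agent.D0H95.NB.Ome

/-!
Jacobi fields: the Wronskian and the scaling field.
-/

set_option autoImplicit false

namespace Pool.Agent.D0H95.NB

open Pool.Agent.W821.TB Finset Filter Topology

variable {n : ℕ} {m : Fin n → ℝ}

/-- `ξ` solves the variational equation along `x`. -/
def JF (m : Fin n → ℝ) (x ξ : ℝ → Ph n) : Prop :=
  ∀ t, HasDerivAt ξ (fderiv ℝ (vf m) (x t) (ξ t)) t

theorem wronskian {x ξ η : ℝ → Ph n} (hx : IsSol m Set.univ x) (hξ : JF m x ξ) (hη : JF m x η)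
    (t s : ℝ) : ome m (ξ t) (η t) = ome m (ξ s) (η s) := by
  have hd : ∀ t, HasDerivAt (fun t => ome m (ξ t) (η t)) 0 t := by
    intro t
    have h := hasDerivAt_ome (m := m) (hξ t) (hη t)
    rw [ham (hx.mem t).1] at h
    exact h
  exact is_const_of_deriv_eq_zero (fun t => (hd t).differentiableAt) (fun t => (hd t).deriv) t s

theorem jf_vf {x : ℝ → Ph n} (hx : IsSol m Set.univ x) : JF m x (fun t => vf m (x t)) := by
  intro t
  have h1 : HasFDerivAt (vf m) (fderiv ℝ (vf m) (x t)) (x t) :=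
    ((contDiffAt_vf (hx.mem t).1).differentiableAt one_ne_zero).hasFDerivAt
  exact h1.comp_hasDerivAt t (hx.hasDerivAt t)

theorem vf_scale (z : Ph n) {r : ℝ} (hr : 0 < r) :
    vf m ((r ^ 2)⁻¹ • z.1, r • z.2) = (r • z.2, r ^ 4 • acc m z.1) := by
  unfold vf
  refine Prod.ext rfl ?_
  funext a
  simp only [Pi.smul_apply]
  unfold acc
  rw [Finset.smul_sum]
  refine Finset.sum_congr rfl fun b _ => ?_
  simp only [Pi.smul_apply]
  have h1 : (r ^ 2)⁻¹ • z.1 b - (r ^ 2)⁻¹ • z.1 a = (r ^ 2)⁻¹ • (z.1 b - z.1 a) := by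
    rw [smul_sub]
  rw [h1, norm_smul, Real.norm_of_nonneg (by positivity)]
  rw [Complex.real_smul, Complex.real_smul]
  have hr' : (r : ℂ) ≠ 0 := by exact_mod_cast hr.ne'
  push_cast
  by_cases hz : z.1 b - z.1 a = 0
  · rw [hz]; simp
  · have hn : ((‖z.1 b - z.1 a‖ : ℝ) : ℂ) ≠ 0 := by
      exact_mod_cast norm_ne_zero_iff.mpr hz
    field_simp

/-- The scaling field. -/
noncomputable def sc (m : Fin n → ℝ) (x : ℝ → Ph n) (t : ℝ) : Ph n :=
  ((-2 : ℝ) • (x t).1, (x t).2) + (3 * t) • vf m (x t)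

theorem fderiv_scale {z : Ph n} (hz : ∀ a b, a ≠ b → z.1 a ≠ z.1 b) :
    fderiv ℝ (vf m) z ((-2 : ℝ) • z.1, z.2) = (z.2, (4 : ℝ) • acc m z.1) := by
  have hc : HasDerivAt (fun r : ℝ => (((r ^ 2)⁻¹ • z.1, r • z.2) : Ph n))
      ((-2 : ℝ) • z.1, z.2) 1 := by
    have h1 : HasDerivAt (fun r : ℝ => (r ^ 2)⁻¹) (-2) 1 := by
      have h : HasDerivAt (fun r : ℝ => r ^ 2) 2 1 := by simpa using hasDerivAt_pow 2 (1:ℝ)
      have h' : HasDerivAt (fun r : ℝ => (r ^ 2)⁻¹) (-2 / (1 ^ 2) ^ 2) 1 := h.fun_inv (by norm_num)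
      simpa using h'
    have h2 := (hasDerivAt_id (1:ℝ)).smul_const z.2
    have h3 := (h1.smul_const z.1).prodMk h2
    simpa using h3
  have h0 : (fun r : ℝ => (((r ^ 2)⁻¹ • z.1, r • z.2) : Ph n)) 1 = z := by simp
  have h1 : HasFDerivAt (vf m) (fderiv ℝ (vf m) z)
      ((fun r : ℝ => (((r ^ 2)⁻¹ • z.1, r • z.2) : Ph n)) 1) := by
    rw [h0]
    exact ((contDiffAt_vf hz).differentiableAt one_ne_zero).hasFDerivAt
  have h2 := h1.comp_hasDerivAt (1:ℝ) hc
  have h3 : HasDerivAt (fun r : ℝ => ((r • z.2, r ^ 4 • acc m z.1) : Ph n))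
      (z.2, (4:ℝ) • acc m z.1) 1 := by
    have h4 := (hasDerivAt_id (1:ℝ)).smul_const z.2
    have h5 : HasDerivAt (fun r : ℝ => r ^ 4) 4 1 := by
      simpa using hasDerivAt_pow 4 (1:ℝ)
    have h6 := h4.prodMk (h5.smul_const (acc m z.1))
    simpa using h6
  have h4 : (vf m ∘ fun r : ℝ => (((r ^ 2)⁻¹ • z.1, r • z.2) : Ph n)) =ᶠ[𝓝 1]
      fun r : ℝ => ((r • z.2, r ^ 4 • acc m z.1) : Ph n) := by
    filter_upwards [lt_mem_nhds (show (0:ℝ) < 1 by norm_num)] with r hr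
    exact vf_scale z hr
  exact h2.unique (h3.congr_of_eventuallyEq h4)

theorem jf_sc {x : ℝ → Ph n} (hx : IsSol m Set.univ x) : JF m x (sc m x) := by
  intro t
  unfold sc
  have h1 : HasDerivAt (fun t => (((-2 : ℝ) • (x t).1, (x t).2) : Ph n))
      ((-2 : ℝ) • (x t).2, acc m (x t).1) t := by
    have hf : HasDerivAt (fun t => (x t).1) (x t).2 t :=
      (ContinuousLinearMap.fst ℝ (Fin n → ℂ) (Fin n → ℂ)).hasFDerivAt.comp_hasDerivAt t
        (hx.hasDerivAt t)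
    have hs : HasDerivAt (fun t => (x t).2) (acc m (x t).1) t :=
      (ContinuousLinearMap.snd ℝ (Fin n → ℂ) (Fin n → ℂ)).hasFDerivAt.comp_hasDerivAt t
        (hx.hasDerivAt t)
    exact (hf.const_smul (-2 : ℝ)).prodMk hs
  have h2 : HasDerivAt (fun t : ℝ => 3 * t) 3 t := by
    simpa using (hasDerivAt_id t).const_mul 3
  have h3 := h1.add (h2.smul (jf_vf hx t))
  refine h3.congr_deriv ?_
  rw [map_add, map_smul, fderiv_scale (hx.mem t).1]
  unfold vf
  ext a <;> simp <;> ring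

/-- A twisted periodic Jacobi field does not change the energy. -/
theorem energy_zero {x ξ : ℝ → Ph n} (hx : IsSol m Set.univ x) (hξ : JF m x ξ) {T : ℝ} (hT : 0 < T)
    {c : ℂ} (hc : ‖c‖ = 1) (hper : ∀ t, x (t + T) = c • x t) (hp : ∀ t, ξ (t + T) = c • ξ t)
    (t : ℝ) : fderiv ℝ (energy m) (x t) (ξ t) = 0 := by
  rw [fderiv_energy (hx.mem t).1]
  have h1 := wronskian hx (jf_sc hx) hξ (t + T) t
  have h2 : sc m x (t + T) = c • (sc m x t + (3 * T) • vf m (x t)) := by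
    unfold sc
    rw [hper, vf_smul hc]
    ext a <;> simp <;> ring
  rw [h2, hp, ome_smul hc, ome_add_left, ome_smul_left] at h1
  have h3 : 3 * T * ome m (vf m (x t)) (ξ t) = 0 := by linarith
  rcases mul_eq_zero.mp h3 with h | h
  · linarith
  · exact h

end Pool.Agent.D0H95.NB
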