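import Pool.Agent.D0H95.NB.Main
import Pool.Agent.D0H95.NB.Wro
import Pool.Agent.D0H95.NB.Pers2

/-!
Lyapunov stable relative periodic orbits which are nondegenerate in the reduced system belong to
isochronous families.
-/

set_option autoImplicit false

namespace Pool.Agent.D0H95.NB

open Pool.Agent.W821.TB Finset Filter Topology

variable {n : ℕ} {m : Fin n → ℝ}

theorem jf_rot {x : ℝ → Ph n} (hx : IsSol m Set.univ x) : JF m x (fun t => Complex.I • x t) := by
  intro t
  have h1 : HasDerivAt (fun t => Complex.I • x t) (Complex.I • vf m (x t)) t :=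
    (hx.hasDerivAt t).const_smul Complex.I
  have h2 : HasDerivAt (fun s : ℝ => Complex.exp (s * Complex.I) • x t) (Complex.I • x t) 0 := by
    have h3 : HasDerivAt (fun s : ℝ => Complex.exp (s * Complex.I)) Complex.I 0 := by
      have h4 : HasDerivAt (fun s : ℝ => (s : ℂ) * Complex.I) Complex.I 0 := by
        have := (Complex.ofRealCLM.hasDerivAt (x := (0:ℝ))).mul_const Complex.I
        simpa using this
      have := h4.cexp
      simpa using this
    have := h3.smul_const (x t)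
    simpa using this
  have h0 : (fun s : ℝ => Complex.exp (s * Complex.I) • x t) 0 = x t := by simp
  have h3 : HasFDerivAt (vf m) (fderiv ℝ (vf m) (x t))
      ((fun s : ℝ => Complex.exp (s * Complex.I) • x t) 0) := by
    rw [h0]
    exact ((contDiffAt_vf (hx.mem t).1).differentiableAt one_ne_zero).hasFDerivAt
  have h4 := h3.comp_hasDerivAt (0:ℝ) h2
  have h5 : (vf m ∘ fun s : ℝ => Complex.exp (s * Complex.I) • x t) =
      fun s : ℝ => Complex.exp (s * Complex.I) • vf m (x t) := by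
    funext s
    exact vf_smul (norm_expI s) (x t)
  rw [h5] at h4
  have h6 : HasDerivAt (fun s : ℝ => Complex.exp (s * Complex.I) • vf m (x t))
      (Complex.I • vf m (x t)) 0 := by
    have h3 : HasDerivAt (fun s : ℝ => Complex.exp (s * Complex.I)) Complex.I 0 := by
      have h4 : HasDerivAt (fun s : ℝ => (s : ℂ) * Complex.I) Complex.I 0 := by
        have := (Complex.ofRealCLM.hasDerivAt (x := (0:ℝ))).mul_const Complex.I
        simpa using this
      have := h4.cexp
      simpa using this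
    have := h3.smul_const (vf m (x t))
    simpa using this
  rw [h4.unique h6]
  exact h1

/-- The rotation of the relative periodic solutions near a stable one is locked. -/
theorem lock (hn : 2 ≤ n) (hm : ∀ a, 0 < m a) {x : ℝ → Ph n}
    (hx : IsSol m Set.univ x) (hre : ¬ IsRelEq x) (hst : LyapunovStable m (Set.range x))
    {T : ℝ} (hT : 0 < T) {c : ℂ} (hc : ‖c‖ = 1) (hper : ∀ t, x (t + T) = c • x t) :
    ∃ K : ℕ, 1 ≤ K ∧ ∃ U ∈ 𝓝 (x 0), c ^ (2 * K) = 1 ∧ ∀ (y : ℝ → Ph n) (d : ℂ),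
      IsSol m Set.univ y → y 0 ∈ U → ‖d‖ = 1 → (∀ t, y (t + T) = d • y t) → d ^ (2 * K) = 1 := by
  have hdist : ∀ {y : ℝ → Ph n} {d : ℂ}, ‖d‖ = 1 → (∀ t, y (t + T) = d • y t) → DistPer y T := by
    intro y d hd hy t a b
    rw [hy]
    have : (d • y t).1 a - (d • y t).1 b = d * ((y t).1 a - (y t).1 b) := by simp [mul_sub]
    rw [this, norm_mul, hd, one_mul]
  rcases final hn hm hx hT (hdist hc hper) hst with h | ⟨K, hK, -, U, hUo, hxU, -, hU⟩
  · exact absurd h hre
  have hpow : ∀ (y : ℝ → Ph n) (d : ℂ), IsSol m Set.univ y → y 0 ∈ U → ‖d‖ = 1 →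
      (∀ t, y (t + T) = d • y t) → d ^ (2 * K) = 1 := by
    intro y d hy hyU hd hyd
    have h1 := hU y hy hyU T hT (hdist hd hyd) 0
    have h2 := iter_smul hyd (2 * K) 0
    have h3 : ((2 * K : ℕ) : ℝ) * T = 2 * K * T := by push_cast; ring
    rw [h3, h1] at h2
    obtain ⟨a, ha⟩ := exists_ne_zero hn (hy.mem 0)
    have h4 : (y 0).1 a = d ^ (2 * K) * (y 0).1 a := congrArg (fun z : Ph n => z.1 a) h2
    have h5 : (d ^ (2 * K) - 1) * (y 0).1 a = 0 := by linear_combination -h4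
    rcases mul_eq_zero.mp h5 with h | h
    · exact sub_eq_zero.mp h
    · exact absurd h ha
  exact ⟨K, hK, U, hUo.mem_nhds (hxU ⟨0, rfl⟩), hpow x c hx (hxU ⟨0, rfl⟩) hc hper, hpow⟩

theorem small_angle {K : ℕ} (hK : 1 ≤ K) {s : ℝ} (hs : |s| < Real.pi / K) {c : ℂ}
    (hc : c ^ (2 * K) = 1) (h : (Complex.exp (s * Complex.I) * c) ^ (2 * K) = 1) : s = 0 := by
  rw [mul_pow, hc, mul_one, ← Complex.exp_nat_mul, Complex.exp_eq_one_iff] at h
  obtain ⟨j, hj⟩ := h
  have h2 : ((2 * K * s : ℝ) : ℂ) * Complex.I = ((j * (2 * Real.pi) : ℝ) : ℂ) * Complex.I := by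
    push_cast at hj ⊢
    linear_combination hj
  have h3 : (2 * K * s : ℝ) = j * (2 * Real.pi) := by
    have := mul_right_cancel₀ Complex.I_ne_zero h2
    exact_mod_cast this
  have hK0 : (0:ℝ) < K := by exact_mod_cast hK
  have hpi := Real.pi_pos
  have h4 : (K:ℝ) * |s| < Real.pi := by
    rw [lt_div_iff₀ hK0] at hs; linarith
  have h5 : |(j:ℝ)| < 1 := by
    have h6 : |(K:ℝ) * s| = |(j:ℝ) * Real.pi| := by
      congr 1; linarith
    rw [abs_mul, abs_mul, abs_of_pos hK0, abs_of_pos hpi] at h6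
    by_contra h7
    have h7 := not_lt.mp h7
    nlinarith
  have h6 : j = 0 := by
    have h7 : |j| < 1 := by exact_mod_cast h5
    exact Int.abs_lt_one_iff.mp h7
  rw [h6] at h3
  have h7 : (2 * (K:ℝ)) * s = 0 := by rw [h3]; simp
  rcases mul_eq_zero.mp h7 with h | h
  · linarith
  · exact h

/-- **Isochronous families.** -/
theorem isochronous (hn : 2 ≤ n) (hm : ∀ a, 0 < m a) {x : ℝ → Ph n}
    (hx : IsSol m Set.univ x) (hre : ¬ IsRelEq x) (hst : LyapunovStable m (Set.range x))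
    {T : ℝ} (hT : 0 < T) {c : ℂ} (hc : ‖c‖ = 1) (hper : ∀ t, x (t + T) = c • x t)
    (hR : ∀ ξ : ℝ → Ph n, IsJac m x ξ → (∀ t, ξ (t + T) = c • ξ t) →
      (∀ t, fderiv ℝ (ang m) (x t) (ξ t) = 0) →
      ∃ α β : ℝ, ∀ t, ξ t = α • vf m (x t) + β • (Complex.I • x t)) :
    ∃ ε : ℝ, 0 < ε ∧ ∃ Y : ℝ → ℝ → Ph n, Y (ang m (x 0)) = x ∧
      ContDiffOn ℝ 1 (fun l => Y l 0) (Metric.ball (ang m (x 0)) ε) ∧
      ∀ l ∈ Metric.ball (ang m (x 0)) ε, IsSol m Set.univ (Y l) ∧
        (∀ t, Y l (t + T) = c • Y l t) ∧ energy m (Y l 0) = energy m (x 0) ∧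
        ang m (Y l 0) = l := by
  obtain ⟨R, δ, hR0, hδ, hRg⟩ := exists_region hx hT hc hper
  obtain ⟨P, hPR, hPδ⟩ := exists_pk m hR0 hδ
  have hc0 : c ≠ 0 := by rintro rfl; simp at hc
  have hxS : ∀ t, x t ∈ P.S := by
    intro t
    unfold Pk.S
    rw [hPR, hPδ]
    exact hRg t
  set z0 : cm m := ⟨x 0, sol_cm hx 0⟩ with hz0
  have hg : ∀ t, ((P.g t z0 : cm m) : Ph n) = x t := P.of_sol hx hxS
  have hS0 : ∀ t, ((P.g t z0 : cm m) : Ph n) ∈ P.S := fun t => by rw [hg]; exact hxS t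
  have hgT : P.g T z0 = c • z0 := by
    apply Subtype.ext
    rw [hg]
    have := hper 0
    rw [zero_add] at this
    exact this
  have hne : ∀ a b, a ≠ b → (z0 : Ph n).1 a ≠ (z0 : Ph n).1 b := (hx.mem 0).1
  -- the map
  set e : ℝ → ℂ := fun s => Complex.exp (-(s * Complex.I)) * c⁻¹ with he
  have he_norm : ∀ s, ‖e s‖ = 1 := by
    intro s
    rw [he]
    simp only
    rw [norm_mul, norm_inv, hc, inv_one, mul_one,
      show -((s : ℂ) * Complex.I) = ((-s : ℝ) : ℂ) * Complex.I by push_cast; ring]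
    exact norm_expI _
  have hed : ContDiff ℝ 1 e := by
    rw [he]
    have h1 : ContDiff ℝ 1 (fun s : ℝ => -((s : ℂ) * Complex.I)) :=
      (Complex.ofRealCLM.contDiff.mul contDiff_const).neg
    exact h1.cexp.mul contDiff_const
  set F : ℝ × cm m → cm m := fun p => e p.1 • P.g T p.2 with hF
  have hFd : ContDiff ℝ 1 F := by
    have h1 : ContDiff ℝ 1 (fun p : ℝ × cm m =>
        (ContinuousLinearMap.lsmul ℝ ℂ : ℂ →L[ℝ] cm m →L[ℝ] cm m) (e p.1)) :=
      ContDiff.comp (g := fun w : ℂ => (ContinuousLinearMap.lsmul ℝ ℂ : ℂ →L[ℝ] cm m →L[ℝ] cm m) w)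
        (f := fun p : ℝ × cm m => e p.1) (ContinuousLinearMap.contDiff _)
        (hed.comp contDiff_fst)
    exact h1.clm_apply ((P.cd_t T).comp contDiff_snd)
  have e0 : e 0 = c⁻¹ := by rw [he]; simp
  have hF0 : F (0, z0) = z0 := by
    rw [hF]
    simp only
    rw [e0, hgT, smul_smul, inv_mul_cancel₀ hc0, one_smul]
  have hnear := P.near (z0 := z0) (T := T) (fun t _ => hS0 t)
  have hinv : ∀ᶠ p in 𝓝 ((0:ℝ), z0), QQ m (F p) = QQ m p.2 := by
    have h1 : Tendsto (fun p : ℝ × cm m => p.2) (𝓝 ((0:ℝ), z0)) (𝓝 z0) :=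
      continuous_snd.tendsto _
    filter_upwards [h1.eventually hnear] with p hp
    rw [hF]
    simp only
    rw [QQ_smul (he_norm _)]
    unfold QQ
    rw [P.energy_eq hT.le hp, P.ang_eq hT.le hp]
  -- the derivative of `F`
  have hFder : ∀ (s : ℝ) (v : cm m), fderiv ℝ F (0, z0) (s, v) =
      c⁻¹ • fderiv ℝ (P.g T) z0 v - s • (Complex.I • z0) := by
    intro s v
    have h1 : HasDerivAt (fun r : ℝ => F (r * s, z0 + r • v)) (fderiv ℝ F (0, z0) (s, v)) 0 := by
      have h2 : HasDerivAt (fun r : ℝ => ((r * s, z0 + r • v) : ℝ × cm m)) (s, v) 0 := by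
        have h3 : HasDerivAt (fun r : ℝ => r * s) s 0 := by
          simpa using (hasDerivAt_id (0:ℝ)).mul_const s
        have h4 : HasDerivAt (fun r : ℝ => z0 + r • v) v 0 := by
          simpa using ((hasDerivAt_id (0:ℝ)).smul_const v).const_add z0
        exact h3.prodMk h4
      have h3 : HasFDerivAt F (fderiv ℝ F (0, z0))
          ((fun r : ℝ => ((r * s, z0 + r • v) : ℝ × cm m)) 0) := by
        have : (fun r : ℝ => ((r * s, z0 + r • v) : ℝ × cm m)) 0 = (0, z0) := by simp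
        rw [this]
        exact (hFd.differentiable one_ne_zero (0, z0)).hasFDerivAt
      exact h3.comp_hasDerivAt (0:ℝ) h2
    have h2 : HasDerivAt (fun r : ℝ => e (r * s)) (-(s * Complex.I) * c⁻¹) 0 := by
      have h3 : HasDerivAt (fun r : ℝ => -(((r * s : ℝ) : ℂ) * Complex.I)) (-(s * Complex.I)) 0 := by
        have h4 : HasDerivAt (fun r : ℝ => r * s) s 0 := by
          simpa using (hasDerivAt_id (0:ℝ)).mul_const s
        have h5 := (h4.ofReal_comp.mul_const Complex.I).neg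
        exact h5
      have h4 := h3.cexp.mul_const c⁻¹
      have h5 : HasDerivAt (fun r : ℝ => e (r * s)) (Complex.exp (-(((0 * s : ℝ) : ℂ) * Complex.I)) *
          (-(s * Complex.I)) * c⁻¹) 0 := h4
      refine h5.congr_deriv ?_
      simp
    have h3 : HasDerivAt (fun r : ℝ => P.g T (z0 + r • v)) (fderiv ℝ (P.g T) z0 v) 0 := by
      have h4 : HasDerivAt (fun r : ℝ => z0 + r • v) v 0 := by
        simpa using ((hasDerivAt_id (0:ℝ)).smul_const v).const_add z0
      have h5 : HasFDerivAt (P.g T) (fderiv ℝ (P.g T) z0) ((fun r : ℝ => z0 + r • v) 0) := by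
        have : (fun r : ℝ => z0 + r • v) 0 = z0 := by simp
        rw [this]
        exact P.diff T z0
      exact h5.comp_hasDerivAt (0:ℝ) h4
    have h4 := h2.smul h3
    have h5 := h1.unique h4
    rw [h5]
    simp only [zero_mul, zero_smul, add_zero]
    rw [e0, hgT, smul_smul, mul_assoc, inv_mul_cancel₀ hc0, mul_one, neg_smul, ← sub_eq_add_neg]
    congr 1
    rw [← smul_smul]
    rfl
  -- Jacobi fields
  have hj : ∀ {z : cm m}, (∀ t, ((P.g t z : cm m) : Ph n) ∈ P.S) → ∀ v : cm m,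
      JF m (fun t => ((P.g t z : cm m) : Ph n)) (fun t => ((fderiv ℝ (P.g t) z v : cm m) : Ph n)) :=
    fun hz v t => P.jac hz v t
  have hgx : (fun t => ((P.g t z0 : cm m) : Ph n)) = x := funext hg
  have hjx : ∀ v : cm m, JF m x (fun t => ((fderiv ℝ (P.g t) z0 v : cm m) : Ph n)) := by
    intro v
    have := hj hS0 v
    rwa [hgx] at this
  have hjp : ∀ {z v : cm m}, P.g T z = c • z → fderiv ℝ (P.g T) z v = c • v → ∀ t,
      ((fderiv ℝ (P.g (t + T)) z v : cm m) : Ph n) = c • ((fderiv ℝ (P.g t) z v : cm m) : Ph n) := by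
    intro z v hz hv t
    rw [P.D_add, hz, hv, P.D_smul hc]
    rfl
  -- the third field
  have hnd := stable_degenerate hn hm hx hre hst hT hc hper
  unfold Nondeg at hnd
  push Not at hnd
  obtain ⟨ξ, hξ, hξp, hξn⟩ := hnd
  have hξJ : JF m x ξ := fun t => (hξ t).2
  have hL0 : fderiv ℝ (ang m) (x 0) (ξ 0) ≠ 0 := by
    intro h0
    have hall : ∀ t, fderiv ℝ (ang m) (x t) (ξ t) = 0 := by
      intro t
      rw [fderiv_ang, wronskian hx (jf_rot hx) hξJ t 0, ← fderiv_ang]
      exact h0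
    obtain ⟨α, β, hαβ⟩ := hR ξ hξ hξp hall
    obtain ⟨t, ht⟩ := hξn α β
    exact ht (hαβ t)
  -- the second component of the derivative of `QQ`
  have hQ2 : ∀ {z : cm m}, (∀ a b, a ≠ b → (z : Ph n).1 a ≠ (z : Ph n).1 b) → ∀ v : cm m,
      (fderiv ℝ (QQ m) z v).2 = fderiv ℝ (ang m) (z : Ph n) (v : Ph n) := by
    intro z hz v
    have h1 : HasFDerivAt (QQ m) (fderiv ℝ (QQ m) z) z :=
      ((contDiffAt_QQ hz).differentiableAt one_ne_zero).hasFDerivAt
    have h2 : HasFDerivAt (fun w : cm m => (QQ m w).2)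
        ((ContinuousLinearMap.snd ℝ ℝ ℝ).comp (fderiv ℝ (QQ m) z)) z :=
      (ContinuousLinearMap.snd ℝ ℝ ℝ).hasFDerivAt.comp z h1
    have h3 : HasFDerivAt (fun w : cm m => ang m (inc m w))
        ((fderiv ℝ (ang m) (inc m z)).comp (inc m)) z :=
      ((contDiff_ang.differentiable one_ne_zero _).hasFDerivAt).comp z (inc m).hasFDerivAt
    have h4 := h2.unique h3
    exact congrArg (fun L : cm m →L[ℝ] ℝ => L v) h4
  have hs : ∀ (s : ℝ) (v : cm m), fderiv ℝ F (0, z0) (s, v) = v →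
      (fderiv ℝ (QQ m) z0 v).2 = 0 → s = 0 := by
    intro s v h1 _
    rw [hFder] at h1
    have h2 : fderiv ℝ (P.g T) z0 v = c • (v + s • (Complex.I • z0)) := by
      rw [← sub_eq_iff_eq_add.mp h1, smul_smul, mul_inv_cancel₀ hc0, one_smul]
    have h3 := wronskian hx (hjx v) hξJ T 0
    rw [h2, P.D_zero] at h3
    have h4 : ξ T = c • ξ 0 := by simpa using hξp 0
    have h5 : ((c • (v + s • (Complex.I • z0)) : cm m) : Ph n) =
        c • ((v : Ph n) + s • (Complex.I • x 0)) := rfl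
    rw [h4, h5, ome_smul hc, ome_add_left, ome_smul_left, ← fderiv_ang] at h3
    have h6 : s * fderiv ℝ (ang m) (x 0) (ξ 0) = 0 := by linarith
    rcases mul_eq_zero.mp h6 with h | h
    · exact h
    · exact absurd h hL0
  have hker : ∀ K : Submodule ℝ (cm m), (∀ v ∈ K, fderiv ℝ F (0, z0) (0, v) = v ∧
      (fderiv ℝ (QQ m) z0 v).2 = 0) → Module.finrank ℝ K ≤ 2 := by
    intro K hK
    classical
    set u1 : cm m := ⟨vf m (x 0), vf_mem (sol_cm hx 0)⟩ with hu1
    set u2 : cm m := Complex.I • z0 with hu2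
    have hsub : K ≤ Submodule.span ℝ (({u1, u2} : Finset (cm m)) : Set (cm m)) := by
      intro v hv
      obtain ⟨h1, h2⟩ := hK v hv
      rw [hFder, zero_smul, sub_zero] at h1
      have hv2 : fderiv ℝ (P.g T) z0 v = c • v := by
        rw [← h1, smul_smul, mul_inv_cancel₀ hc0, one_smul]
        rw [h1]
      rw [hQ2 hne] at h2
      have hjac : IsJac m x (fun t => ((fderiv ℝ (P.g t) z0 v : cm m) : Ph n)) :=
        fun t => ⟨(fderiv ℝ (P.g t) z0 v).2, hjx v t⟩
      have hang : ∀ t, fderiv ℝ (ang m) (x t) ((fderiv ℝ (P.g t) z0 v : cm m) : Ph n) = 0 := by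
        intro t
        rw [fderiv_ang]
        have h3 := wronskian hx (jf_rot hx) (hjx v) t 0
        rw [h3, P.D_zero, ← fderiv_ang]
        exact h2
      obtain ⟨α, β, hαβ⟩ := hR _ hjac (hjp hgT hv2) hang
      have h3 : ((fderiv ℝ (P.g 0) z0 v : cm m) : Ph n) =
        α • vf m (x 0) + β • (Complex.I • x 0) := hαβ 0
      rw [P.D_zero] at h3
      have h4 : v = α • u1 + β • u2 := Subtype.ext h3
      rw [h4]
      refine Submodule.add_mem _ (Submodule.smul_mem _ _ (Submodule.subset_span ?_))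
        (Submodule.smul_mem _ _ (Submodule.subset_span ?_)) <;> simp
    exact (Submodule.finrank_mono hsub).trans
      ((finrank_span_finset_le_card _).trans Finset.card_le_two)
  obtain ⟨γ, hγc, hγ0, hγ⟩ := curve hFd.contDiffAt hF0 (contDiffAt_QQ hne) (surj hn hm hx hre) hinv
    hs hker
  have hQl : (QQ m z0).2 = ang m (x 0) := rfl
  rw [hQl] at hγc hγ0 hγ
  -- locking
  obtain ⟨K, hK, U, hU, hcK, hlock⟩ := lock hn hm hx hre hst hT hc hper
  have hK0 : (0:ℝ) < K := by exact_mod_cast hK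
  have hU' : {z : cm m | (z : Ph n) ∈ U} ∈ 𝓝 z0 :=
    (inc m).continuous.continuousAt.eventually (show U ∈ 𝓝 (inc m z0) from hU)
  have ht : Tendsto γ (𝓝 (ang m (x 0))) (𝓝 ((0:ℝ), z0)) := by
    have := hγc.continuousAt.tendsto
    rwa [hγ0] at this
  have ht1 : Tendsto (fun l => (γ l).1) (𝓝 (ang m (x 0))) (𝓝 0) :=
    (continuous_fst.tendsto ((0:ℝ), z0)).comp ht
  have ht2 : Tendsto (fun l => (γ l).2) (𝓝 (ang m (x 0))) (𝓝 z0) :=
    (continuous_snd.tendsto ((0:ℝ), z0)).comp ht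
  have hsmall : ∀ᶠ s : ℝ in 𝓝 0, |s| < Real.pi / K := by
    have : (0:ℝ) < Real.pi / K := by positivity
    filter_upwards [Metric.ball_mem_nhds (0:ℝ) this] with s hs
    rwa [Metric.mem_ball, Real.dist_eq, sub_zero] at hs
  have hgood : ∀ᶠ l in 𝓝 (ang m (x 0)), ContDiffAt ℝ 1 γ l ∧
      (∀ t, ((P.g t (γ l).2 : cm m) : Ph n) ∈ P.S) ∧ P.g T (γ l).2 = c • (γ l).2 ∧
      ang m ((γ l).2 : Ph n) = l := by
    filter_upwards [hγ, hγc.eventually (by simp), ht2.eventually hU', ht2.eventually hnear,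
      ht1.eventually hsmall] with l hl1 hl2 hl3 hl4 hl5
    obtain ⟨hl1, hl6⟩ := hl1
    set s := (γ l).1 with hsdef
    set z := (γ l).2 with hzdef
    have hd : ‖Complex.exp (s * Complex.I) * c‖ = 1 := by rw [norm_mul, hc, norm_expI, one_mul]
    have hgz : P.g T z = (Complex.exp (s * Complex.I) * c) • z := by
      have h1 : e s • P.g T z = z := hl1
      have h2 : (Complex.exp (s * Complex.I) * c) * e s = 1 := by
        rw [he]
        simp only
        rw [mul_mul_mul_comm, ← Complex.exp_add, add_neg_cancel, Complex.exp_zero,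
          mul_inv_cancel₀ hc0, one_mul]
      conv_rhs => rw [← h1]
      rw [smul_smul, h2, one_smul]
    have hall := P.per_mem hd hT hgz hl4
    have hy := P.sol_of hall
    have hs0 : s = 0 := by
      refine small_angle hK hl5 hcK (hlock _ _ hy ?_ hd ?_)
      · change ((P.g 0 z : cm m) : Ph n) ∈ U
        rw [P.hg.zero]; exact hl3
      · intro t
        change ((P.g (t + T) z : cm m) : Ph n) = _
        rw [P.per_smul hd hgz]
        rfl
    refine ⟨hl2, hall, ?_, hl6⟩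
    rw [hgz, hs0]
    simp
  obtain ⟨ε, hε0, hε⟩ := Metric.eventually_nhds_iff_ball.mp hgood
  have hl0 : ang m (x 0) ∈ Metric.ball (ang m (x 0)) ε := Metric.mem_ball_self hε0
  have hYsol : ∀ l ∈ Metric.ball (ang m (x 0)) ε,
      IsSol m Set.univ (fun t => ((P.g t (γ l).2 : cm m) : Ph n)) := fun l hl =>
    P.sol_of (hε l hl).2.1
  have hYper : ∀ l ∈ Metric.ball (ang m (x 0)) ε, ∀ t,
      ((P.g (t + T) (γ l).2 : cm m) : Ph n) = c • ((P.g t (γ l).2 : cm m) : Ph n) := by
    intro l hl t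
    rw [P.per_smul hc (hε l hl).2.2.1]
    rfl
  -- the energy is constant
  have hen : ∀ l ∈ Metric.ball (ang m (x 0)) ε,
      HasDerivAt (fun l => energy m ((γ l).2 : Ph n)) 0 l := by
    intro l hl
    have hd1 : HasDerivAt γ (deriv γ l) l :=
      ((hε l hl).1.differentiableAt one_ne_zero).hasDerivAt
    have hd2 : HasDerivAt (fun l => (γ l).2) (deriv γ l).2 l :=
      (ContinuousLinearMap.snd ℝ ℝ (cm m)).hasFDerivAt.comp_hasDerivAt l hd1
    set v := (deriv γ l).2 with hv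
    have h1 : HasDerivAt (fun l => P.g T (γ l).2) (fderiv ℝ (P.g T) (γ l).2 v) l :=
      (P.diff T (γ l).2).comp_hasDerivAt l hd2
    have h2 : HasDerivAt (fun l => c • (γ l).2) (c • v) l := hd2.const_smul c
    have h3 : (fun l => P.g T (γ l).2) =ᶠ[𝓝 l] fun l => c • (γ l).2 := by
      filter_upwards [Metric.isOpen_ball.mem_nhds hl] with l' hl'
      exact (hε l' hl').2.2.1
    have h4 : fderiv ℝ (P.g T) (γ l).2 v = c • v :=
      (h1.congr_of_eventuallyEq h3.symm).unique h2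
    have h5 := energy_zero (hYsol l hl) (hj (hε l hl).2.1 v) hT hc (hYper l hl)
      (hjp (hε l hl).2.2.1 h4) 0
    rw [P.hg.zero, P.D_zero] at h5
    have hne' : ∀ a b, a ≠ b → ((γ l).2 : Ph n).1 a ≠ ((γ l).2 : Ph n).1 b := by
      have := ((hYsol l hl).mem 0).1
      simp only [P.hg.zero] at this
      exact this
    have h6 : HasFDerivAt (energy m) (fderiv ℝ (energy m) ((γ l).2 : Ph n)) ((γ l).2 : Ph n) :=
      ((contDiffAt_energy' (N := 1) hne').differentiableAt one_ne_zero).hasFDerivAt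
    have h7 : HasDerivAt (fun l => ((γ l).2 : Ph n)) (v : Ph n) l :=
      (inc m).hasFDerivAt.comp_hasDerivAt l hd2
    have h8 := h6.comp_hasDerivAt l h7
    rw [h5] at h8
    exact h8
  refine ⟨ε, hε0, fun l t => ((P.g t (γ l).2 : cm m) : Ph n), ?_, ?_, fun l hl => ⟨hYsol l hl,
    hYper l hl, ?_, ?_⟩⟩
  · simp only [hγ0]
    exact hgx
  · intro l hl
    refine ContDiffAt.contDiffWithinAt ?_
    have h1 : (fun l => ((P.g 0 (γ l).2 : cm m) : Ph n)) = fun l => inc m (γ l).2 := by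
      funext l
      rw [P.hg.zero]
      rfl
    rw [h1]
    exact (inc m).contDiff.contDiffAt.comp l (contDiff_snd.contDiffAt.comp l (hε l hl).1)
  · have h1 := Metric.isOpen_ball.is_const_of_deriv_eq_zero
      (convex_ball (ang m (x 0)) ε).isPreconnected
      (fun l hl => (hen l hl).differentiableAt.differentiableWithinAt)
      (fun l hl => (hen l hl).deriv) hl hl0
    rw [hγ0] at h1
    change energy m ((P.g 0 (γ l).2 : cm m) : Ph n) = _
    rw [P.hg.zero]
    exact h1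
  · change ang m ((P.g 0 (γ l).2 : cm m) : Ph n) = l
    rw [P.hg.zero]
    exact (hε l hl).2.2.2

end Pool.Agent.D0H95.NB
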