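import Pool.Agent.D0H95.NB.Ind

/-!
The symplectic form: invariance under the linearized flow, energy, angular momentum, scaling.
-/

set_option autoImplicit false

namespace Pool.Agent.D0H95.NB

open Pool.Agent.W821.TB Finset Filter Topology

variable {n : ℕ} {m : Fin n → ℝ}

/-- The symplectic form of the `n`-body problem. -/
noncomputable def ome (m : Fin n → ℝ) (u v : Ph n) : ℝ :=
  ∑ a, m a * (ip (u.1 a) (v.2 a) - ip (v.1 a) (u.2 a))

theorem ome_smul {c : ℂ} (hc : ‖c‖ = 1) (u v : Ph n) : ome m (c • u) (c • v) = ome m u v := by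
  unfold ome
  refine Finset.sum_congr rfl fun a _ => ?_
  have h : ∀ p q : ℂ, ip (c * p) (c * q) = ip p q := by
    intro p q
    unfold ip
    rw [map_mul, show (starRingEnd ℂ) c * (starRingEnd ℂ) p * (c * q) =
      ((starRingEnd ℂ) c * c) * ((starRingEnd ℂ) p * q) by ring, conj_mul_self_of_norm hc, one_mul]
  simp only [Prod.smul_fst, Prod.smul_snd, Pi.smul_apply, smul_eq_mul, h]

theorem ome_add_left (u v w : Ph n) : ome m (u + v) w = ome m u w + ome m v w := by
  unfold ome
  rw [← Finset.sum_add_distrib]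
  refine Finset.sum_congr rfl fun a _ => ?_
  simp only [Prod.fst_add, Prod.snd_add, Pi.add_apply, ip_eq, Complex.add_re, Complex.add_im]
  ring

theorem ome_smul_left (r : ℝ) (u w : Ph n) : ome m (r • u) w = r * ome m u w := by
  unfold ome
  rw [Finset.mul_sum]
  refine Finset.sum_congr rfl fun a _ => ?_
  simp only [Prod.smul_fst, Prod.smul_snd, Pi.smul_apply, ip_eq, Complex.real_smul,
    Complex.mul_re, Complex.mul_im, Complex.ofReal_re, Complex.ofReal_im]
  ring

theorem ome_anti (u v : Ph n) : ome m u v = - ome m v u := by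
  unfold ome
  rw [← Finset.sum_neg_distrib]
  refine Finset.sum_congr rfl fun a _ => ?_
  ring

theorem ome_add_right (u v w : Ph n) : ome m u (v + w) = ome m u v + ome m u w := by
  rw [ome_anti, ome_add_left, ome_anti v, ome_anti w]; ring

theorem ome_smul_right (r : ℝ) (u w : Ph n) : ome m u (r • w) = r * ome m u w := by
  rw [ome_anti, ome_smul_left, ome_anti w]; ring

theorem hasDerivAt_ip {f g : ℝ → ℂ} {f' g' : ℂ} {t : ℝ} (hf : HasDerivAt f f' t)
    (hg : HasDerivAt g g' t) :
    HasDerivAt (fun s => ip (f s) (g s)) (ip f' (g t) + ip (f t) g') t := by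
  unfold ip
  have h := (hasDerivAt_conj hf).mul hg
  have h2 : HasDerivAt (fun s => ((starRingEnd ℂ) (f s) * g s).re)
      ((starRingEnd ℂ) f' * g t + (starRingEnd ℂ) (f t) * g').re t :=
    Complex.reCLM.hasFDerivAt.comp_hasDerivAt t h
  rw [Complex.add_re] at h2
  exact h2

theorem hasDerivAt_ome {u v : ℝ → Ph n} {u' v' : Ph n} {t : ℝ} (hu : HasDerivAt u u' t)
    (hv : HasDerivAt v v' t) :
    HasDerivAt (fun s => ome m (u s) (v s)) (ome m u' (v t) + ome m (u t) v') t := by
  unfold ome
  rw [← Finset.sum_add_distrib]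
  refine HasDerivAt.fun_sum fun a _ => ?_
  have h1 := hasDerivAt_ip (fst_deriv hu a) (snd_deriv hv a)
  have h2 := hasDerivAt_ip (fst_deriv hv a) (snd_deriv hu a)
  have h3 := (h1.sub h2).const_mul (m a)
  refine h3.congr_deriv ?_
  ring

theorem contDiffAt_energy' {N : WithTop ℕ∞} {z : Ph n} (hz : ∀ a b, a ≠ b → z.1 a ≠ z.1 b) :
    ContDiffAt ℝ N (energy m) z := by
  unfold energy upot
  have hv : ∀ a, ContDiff ℝ N (fun w : Ph n => w.2 a) := fun a => by fun_prop
  have hq : ∀ a, ContDiff ℝ N (fun w : Ph n => w.1 a) := fun a => by fun_prop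
  refine ContDiffAt.sub ?_ ?_
  · refine ContDiffAt.div_const ?_ 2
    exact ContDiffAt.sum fun a _ => (contDiff_const.mul ((hv a).norm_sq ℝ)).contDiffAt
  · refine ContDiffAt.div_const ?_ 2
    refine ContDiffAt.sum fun a _ => ContDiffAt.sum fun b hb => ?_
    have hne : z.1 b - z.1 a ≠ 0 := sub_ne_zero.mpr (hz b a (Finset.ne_of_mem_erase hb))
    have h1 : ContDiffAt ℝ N (fun w : Ph n => ‖w.1 b - w.1 a‖) z :=
      ((hq b).sub (hq a)).contDiffAt.norm ℝ hne
    exact contDiffAt_const.div h1 (norm_ne_zero_iff.mpr hne)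

theorem line (z v : Ph n) : HasDerivAt (fun s : ℝ => z + s • v) v 0 := by
  have := ((hasDerivAt_id (0:ℝ)).smul_const v).const_add z
  simpa using this

/-- The derivative of the energy. -/
theorem fderiv_energy {z : Ph n} (hz : ∀ a b, a ≠ b → z.1 a ≠ z.1 b) (v : Ph n) :
    fderiv ℝ (energy m) z v = ome m (vf m z) v := by
  have h0 : (fun s : ℝ => z + s • v) 0 = z := by simp
  have h1 : HasFDerivAt (energy m) (fderiv ℝ (energy m) z) ((fun s : ℝ => z + s • v) 0) := by
    rw [h0]
    exact ((contDiffAt_energy' (N := 1) hz).differentiableAt one_ne_zero).hasFDerivAt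
  have h2 := h1.comp_hasDerivAt (0:ℝ) (line z v)
  have hz' : ∀ a b, a ≠ b → ((fun s : ℝ => z + s • v) 0).1 a ≠ ((fun s : ℝ => z + s • v) 0).1 b := by
    rw [h0]; exact hz
  have h3 := hasDerivAt_energy (m := m) (fst_deriv (line z v)) (snd_deriv (line z v)) hz'
  have h4 := h2.unique h3
  rw [h4]
  simp only [zero_smul, add_zero]
  unfold ome
  rw [← Finset.sum_sub_distrib]
  refine Finset.sum_congr rfl fun a _ => ?_
  simp only [vf, ip_eq]
  ring

/-- The derivative of the angular momentum. -/
theorem fderiv_ang (z v : Ph n) : fderiv ℝ (ang m) z v = ome m (Complex.I • z) v := by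
  have h0 : (fun s : ℝ => z + s • v) 0 = z := by simp
  have h1 : HasFDerivAt (ang m) (fderiv ℝ (ang m) z) ((fun s : ℝ => z + s • v) 0) := by
    rw [h0]
    exact (contDiff_ang.differentiable one_ne_zero z).hasFDerivAt
  have h2 := h1.comp_hasDerivAt (0:ℝ) (line z v)
  have h3 := hasDerivAt_angc (m := m) (line z v)
  have h4 := h2.unique h3
  rw [h4]
  simp only [zero_smul, add_zero]
  unfold ome
  refine Finset.sum_congr rfl fun a _ => ?_
  simp only [ip_eq, Prod.smul_fst, Prod.smul_snd, Pi.smul_apply, smul_eq_mul, Complex.add_im,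
    Complex.mul_re, Complex.mul_im, Complex.conj_re, Complex.conj_im, Complex.I_re, Complex.I_im]
  ring

/-- The Newtonian field is Hamiltonian. -/
theorem ham {z : Ph n} (hz : ∀ a b, a ≠ b → z.1 a ≠ z.1 b) (u v : Ph n) :
    ome m (fderiv ℝ (vf m) z u) v + ome m u (fderiv ℝ (vf m) z v) = 0 := by
  have hsym := (contDiffAt_energy' (m := m) (N := 2) hz).isSymmSndFDerivAt (by simp)
  have key : ∀ u v : Ph n, fderiv ℝ (fderiv ℝ (energy m)) z u v = ome m (fderiv ℝ (vf m) z u) v := by
    intro u v
    have h0 : (fun s : ℝ => z + s • u) 0 = z := by simp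
    have hd : DifferentiableAt ℝ (fderiv ℝ (energy m)) z :=
      ((contDiffAt_energy' (m := m) (N := 2) hz).fderiv_right (m := 1) (by norm_num)).differentiableAt
        one_ne_zero
    have h1 : HasFDerivAt (fderiv ℝ (energy m)) (fderiv ℝ (fderiv ℝ (energy m)) z)
        ((fun s : ℝ => z + s • u) 0) := by
      rw [h0]; exact hd.hasFDerivAt
    have h2 := h1.comp_hasDerivAt (0:ℝ) (line z u)
    have h3 : HasDerivAt (fun s : ℝ => fderiv ℝ (energy m) (z + s • u) v)
        (fderiv ℝ (fderiv ℝ (energy m)) z u v) 0 := by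
      have := (ContinuousLinearMap.apply ℝ ℝ v).hasFDerivAt.comp_hasDerivAt (0:ℝ) h2
      exact this
    have h4 : HasFDerivAt (vf m) (fderiv ℝ (vf m) z) ((fun s : ℝ => z + s • u) 0) := by
      rw [h0]
      exact ((contDiffAt_vf hz).differentiableAt one_ne_zero).hasFDerivAt
    have h5 := h4.comp_hasDerivAt (0:ℝ) (line z u)
    have h6 := hasDerivAt_ome (m := m) h5 (hasDerivAt_const (0:ℝ) v)
    have h7 : (fun s : ℝ => fderiv ℝ (energy m) (z + s • u) v) =ᶠ[𝓝 0]
        fun s => ome m (vf m (z + s • u)) v := by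
      have hc : Tendsto (fun s : ℝ => z + s • u) (𝓝 0) (𝓝 z) := by
        have := (line z u).continuousAt.tendsto
        simpa using this
      have ho : ∀ᶠ w : Ph n in 𝓝 z, ∀ a b, a ≠ b → w.1 a ≠ w.1 b := by
        have h8 : ∀ a b, ∀ᶠ w : Ph n in 𝓝 z, a ≠ b → w.1 a ≠ w.1 b := by
          intro a b
          by_cases hab : a = b
          · exact Eventually.of_forall fun w h => absurd hab h
          · have hcont : Continuous (fun w : Ph n => (w.1 a, w.1 b)) := by fun_prop
            have h9 : IsOpen {w : Ph n | w.1 a ≠ w.1 b} := by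
              have : IsOpen {p : ℂ × ℂ | p.1 ≠ p.2} := isOpen_ne_fun continuous_fst continuous_snd
              exact this.preimage hcont
            filter_upwards [h9.mem_nhds (hz a b hab)] with w hw _ using hw
        have h10 := Filter.eventually_all.mpr fun a => Filter.eventually_all.mpr (h8 a)
        exact h10
      filter_upwards [hc.eventually ho] with s hs
      exact fderiv_energy hs v
    have h8 := (h3.congr_of_eventuallyEq h7.symm).unique h6
    rw [h8]
    have h9 : ome m ((vf m ∘ fun s : ℝ => z + s • u) 0) 0 = 0 := by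
      unfold ome
      refine Finset.sum_eq_zero fun a _ => ?_
      simp [ip_eq]
    rw [h9, add_zero]
  have h1 : fderiv ℝ (fderiv ℝ (energy m)) z u v = fderiv ℝ (fderiv ℝ (energy m)) z v u := hsym u v
  rw [key, key] at h1
  rw [h1, ome_anti u]
  ring

end Pool.Agent.D0H95.NB
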