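import Pool.Agent.D0H95.NB.Flw

/-!
The variational equation along a solution.
-/

set_option autoImplicit false

namespace Pool.Agent.D0H95.NB

open Pool.Agent.W821.TB Finset Filter Topology
open Pool.Agent.GR.Flow (IsFlowOf contDiff_flow hasDerivAt_fderiv_flow)

variable {n : ℕ} {m : Fin n → ℝ}

/-- Rotation as a real linear map. -/
noncomputable def rotL (m : Fin n → ℝ) (c : ℂ) : cm m →L[ℝ] cm m :=
  (c • ContinuousLinearMap.id ℂ (cm m)).restrictScalars ℝ

@[simp] theorem rotL_apply (c : ℂ) (z : cm m) : rotL m c z = c • z := rfl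

namespace Pk

variable (P : Pk m)

theorem cd_t (t : ℝ) : ContDiff ℝ 1 (P.g t) := by
  have h : ContDiff ℝ 1 (fun z : cm m => (t, z)) := contDiff_const.prodMk contDiff_id
  exact P.cd.comp h

theorem diff (t : ℝ) (z : cm m) : HasFDerivAt (P.g t) (fderiv ℝ (P.g t) z) z :=
  ((P.cd_t t).differentiable one_ne_zero z).hasFDerivAt

theorem D_add (t s : ℝ) (z v : cm m) :
    fderiv ℝ (P.g (t + s)) z v = fderiv ℝ (P.g t) (P.g s z) (fderiv ℝ (P.g s) z v) := by
  have h1 : P.g (t + s) = P.g t ∘ P.g s := funext fun z => P.add t s z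
  have h2 := (P.diff t (P.g s z)).comp z (P.diff s z)
  rw [← h1] at h2
  rw [h2.fderiv]
  rfl

theorem D_smul {c : ℂ} (hc : ‖c‖ = 1) (t : ℝ) (z v : cm m) :
    fderiv ℝ (P.g t) (c • z) (c • v) = c • fderiv ℝ (P.g t) z v := by
  have h1 : HasFDerivAt (fun z : cm m => P.g t (c • z))
      ((fderiv ℝ (P.g t) (c • z)).comp (rotL m c)) z := by
    have h3 : HasFDerivAt (fun z : cm m => c • z) (rotL m c) z := (rotL m c).hasFDerivAt
    exact (P.diff t (c • z)).comp z h3
  have h2 : HasFDerivAt (fun z : cm m => c • P.g t z) ((rotL m c).comp (fderiv ℝ (P.g t) z)) z :=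
    (rotL m c).hasFDerivAt.comp z (P.diff t z)
  have h3 : (fun z : cm m => P.g t (c • z)) = fun z => c • P.g t z :=
    funext fun z => P.smul hc t z
  rw [h3] at h1
  have := congrArg (fun L : cm m →L[ℝ] cm m => L v) (h1.unique h2)
  exact this

theorem fderiv_XX {w : cm m} (hw : (w : Ph n) ∈ P.S) (u : cm m) :
    ((fderiv ℝ (XX m P.R P.δ) w u : cm m) : Ph n) = fderiv ℝ (vf m) (w : Ph n) (u : Ph n) := by
  have h1 : HasFDerivAt (XX m P.R P.δ) (fderiv ℝ (XX m P.R P.δ) w) w :=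
    ((contDiff_XX P.hδ).differentiable one_ne_zero w).hasFDerivAt
  have h2 : HasFDerivAt (fun z : cm m => inc m (XX m P.R P.δ z))
      ((inc m).comp (fderiv ℝ (XX m P.R P.δ) w)) w := (inc m).hasFDerivAt.comp w h1
  have h3 : HasFDerivAt (vf m) (fderiv ℝ (vf m) (inc m w)) (inc m w) :=
    ((contDiffAt_vf (Rg_ne P.hδ hw)).differentiableAt one_ne_zero).hasFDerivAt
  have h4 : HasFDerivAt (fun z : cm m => vf m (inc m z))
      ((fderiv ℝ (vf m) (inc m w)).comp (inc m)) w := h3.comp w (inc m).hasFDerivAt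
  have h5 : (fun z : cm m => inc m (XX m P.R P.δ z)) =ᶠ[𝓝 w] fun z : cm m => vf m (inc m z) := by
    have hO : ∀ᶠ z : cm m in 𝓝 w, inc m z ∈ P.S :=
      (inc m).continuous.continuousAt.eventually ((isOpen_Rg P.R P.δ).mem_nhds hw)
    filter_upwards [hO] with z hz
    exact XX_one P.hR P.hδ hz
  have h6 := h4.congr_of_eventuallyEq h5
  have := congrArg (fun L : cm m →L[ℝ] Ph n => L u) (h2.unique h6)
  exact this

/-- The derivative of the flow solves the variational equation. -/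
theorem jac {z0 : cm m} (hS : ∀ t, ((P.g t z0 : cm m) : Ph n) ∈ P.S) (v : cm m) (t : ℝ) :
    HasDerivAt (fun t => ((fderiv ℝ (P.g t) z0 v : cm m) : Ph n))
      (fderiv ℝ (vf m) ((P.g t z0 : cm m) : Ph n) ((fderiv ℝ (P.g t) z0 v : cm m) : Ph n)) t := by
  have h0 : ContDiff ℝ 1 (P.X : cm m → cm m) := by
    rw [show (P.X : cm m → cm m) = XX m P.R P.δ from rfl]
    exact contDiff_XX P.hδ
  have h1 := hasDerivAt_fderiv_flow (X := P.X) h0 P.hK P.hg (P.g t z0) (fderiv ℝ (P.g t) z0 v)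
  rw [show (P.X : cm m → cm m) = XX m P.R P.δ from rfl] at h1
  have h2 : HasDerivAt (fun s => fderiv ℝ (P.g s) z0 v)
      (fderiv ℝ (XX m P.R P.δ) (P.g t z0) (fderiv ℝ (P.g t) z0 v)) t := by
    have h3 : (fun s => fderiv ℝ (P.g s) z0 v) =
        fun s => fderiv ℝ (P.g (s - t)) (P.g t z0) (fderiv ℝ (P.g t) z0 v) := by
      funext s
      rw [← P.D_add (s - t) t, sub_add_cancel]
    rw [h3]
    have h5 : HasDerivAt (fun t_1 => fderiv ℝ (P.g t_1) (P.g t z0) (fderiv ℝ (P.g t) z0 v))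
        (fderiv ℝ (XX m P.R P.δ) (P.g t z0) (fderiv ℝ (P.g t) z0 v)) (t - t) := by
      rw [sub_self]; exact h1
    exact h5.comp_sub_const t t
  have h6 : HasDerivAt (fun s => inc m (fderiv ℝ (P.g s) z0 v))
      (inc m (fderiv ℝ (XX m P.R P.δ) (P.g t z0) (fderiv ℝ (P.g t) z0 v))) t :=
    (inc m).hasFDerivAt.comp_hasDerivAt t h2
  have h7 : inc m (fderiv ℝ (XX m P.R P.δ) (P.g t z0) (fderiv ℝ (P.g t) z0 v)) =
      fderiv ℝ (vf m) ((P.g t z0 : cm m) : Ph n) ((fderiv ℝ (P.g t) z0 v : cm m) : Ph n) :=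
    P.fderiv_XX (hS t) _
  rw [h7] at h6
  exact h6

theorem D_zero (z v : cm m) : fderiv ℝ (P.g 0) z v = v := by
  have h : P.g 0 = id := funext fun z => P.hg.zero z
  rw [h, fderiv_id]
  rfl

end Pk

end Pool.Agent.D0H95.NB
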